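import Pool.Agent.D0H90.FC.Trace
import Pool.Agent.D0H90.WA.Dich2

/-!
The places of irreducible polynomials: uniqueness, finiteness of zeros and poles, and monomials which
are algebraically independent on them.
-/

set_option autoImplicit false
set_option linter.unusedSectionVars false
set_option linter.overlappingInstances false

open FF Pool.Agent.W602.GT Pool.Agent.W603.LV Pool.Agent.W619.PQ Pool.Agent.TH122.AB
open Pool.Agent.TH585.SV Pool.Agent.Y172 Pool.Agent.D0H90.WA

namespace Pool.Agent.D0H90.FC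

section

variable {k L : Type} [Field k] [CharZero k] [Field L] [Algebra k L]
variable {M : IntermediateField k L} {l : ℕ} {u : Fin l → L}

theorem adic_assoc {g g' : MvPolynomial (Fin l) M} (h : Associated g g') {Q : Place k L}
    (hQ : Adic Q u g) : Adic Q u g' := fun q hq =>
  ⟨(hQ q hq).1, (hQ q hq).2.trans (not_congr h.dvd_iff_dvd_left)⟩

/-- the order of a polynomial at an adic place -/
theorem adic_ord (hG : Gens (k := M) u) {g : MvPolynomial (Fin l) M} (hg : Irreducible g)
    {Q : Place k L} (hQ : Adic Q u g) {q : MvPolynomial (Fin l) M} (hq : q ≠ 0) :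
    Q.ord (MvPolynomial.aeval u q) = (multiplicity g q : ℤ) * Q.ord (MvPolynomial.aeval u g) := by
  have hfin : FiniteMultiplicity g q := FiniteMultiplicity.of_not_isUnit hg.not_isUnit hq
  obtain ⟨q', hq', hndvd⟩ := hfin.exists_eq_pow_mul_and_not_dvd
  have hq'0 : q' ≠ 0 := by
    rintro rfl
    exact hndvd (dvd_zero _)
  conv_lhs => rw [hq']
  rw [map_mul, map_pow, Q.ord_mul (pow_ne_zero _ (hG.ne hg.ne_zero)) (hG.ne hq'0), Q.ord_pow,
    (hQ q' hq'0).2.2 hndvd, add_zero]

theorem adic_one (hG : Gens (k := M) u) {g : MvPolynomial (Fin l) M} (hg : Irreducible g)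
    {Q : Place k L} (hQ : Adic Q u g) : Q.ord (MvPolynomial.aeval u g) = 1 := by
  have hpos : 0 < Q.ord (MvPolynomial.aeval u g) := by
    rcases lt_or_eq_of_le (hQ g hg.ne_zero).1 with h | h
    · exact h
    · exact absurd dvd_rfl ((hQ g hg.ne_zero).2.1 h.symm)
  obtain ⟨f, hf0, hf⟩ := Q.surj
  obtain ⟨A, C, hC, rfl⟩ := hG.gen f
  have hA : A ≠ 0 := by
    rintro rfl
    rw [map_zero, zero_div] at hf0
    exact hf0 rfl
  rw [Q.ord_div (hG.ne hA) (hG.ne hC), adic_ord hG hg hQ hA, adic_ord hG hg hQ hC, ← sub_mul] at hf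
  have h1 : Q.ord (MvPolynomial.aeval u g) ∣ 1 := ⟨_, by rw [mul_comm]; exact hf.symm⟩
  exact Int.eq_one_of_dvd_one hpos.le h1

/-- **Uniqueness** of the place of an irreducible polynomial. -/
theorem adic_uniq (hG : Gens (k := M) u) {g : MvPolynomial (Fin l) M} (hg : Irreducible g)
    {Q Q' : Place k L} (hQ : Adic Q u g) (hQ' : Adic Q' u g) : Q = Q' := by
  refine place_ext fun f => ?_
  by_cases hf0 : f = 0
  · rw [hf0, Q.ord_zero, Q'.ord_zero]
  obtain ⟨A, C, hC, rfl⟩ := hG.gen f
  have hA : A ≠ 0 := by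
    rintro rfl
    rw [map_zero, zero_div] at hf0
    exact hf0 rfl
  rw [Q.ord_div (hG.ne hA) (hG.ne hC), Q'.ord_div (hG.ne hA) (hG.ne hC), adic_ord hG hg hQ hA,
    adic_ord hG hg hQ hC, adic_ord hG hg hQ' hA, adic_ord hG hg hQ' hC, adic_one hG hg hQ,
    adic_one hG hg hQ']

/-- a function has finitely many zeros and poles among the places of the irreducible polynomials -/
theorem adic_fin (hG : Gens (k := M) u) {f : L} (hf : f ≠ 0) :
    {Q : Place k L | (∃ g : MvPolynomial (Fin l) M, Irreducible g ∧ Adic Q u g) ∧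
      Q.ord f ≠ 0}.Finite := by
  classical
  obtain ⟨A, C, hC, rfl⟩ := hG.gen f
  have hA : A ≠ 0 := by
    rintro rfl
    rw [map_zero, zero_div] at hf
    exact hf rfl
  have hAC : A * C ≠ 0 := mul_ne_zero hA hC
  let T : Finset (MvPolynomial (Fin l) M) :=
    (UniqueFactorizationMonoid.factors (A * C)).toFinset
  have hfin : (⋃ p ∈ T, {Q : Place k L | Irreducible p ∧ Adic Q u p}).Finite := by
    refine Set.Finite.biUnion (Finset.finite_toSet _) fun p _ => ?_
    refine Set.Subsingleton.finite ?_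
    rintro Q ⟨hp, hQ⟩ Q' ⟨-, hQ'⟩
    exact adic_uniq hG hp hQ hQ'
  refine hfin.subset ?_
  rintro Q ⟨⟨g, hg, hQ⟩, hord⟩
  have hdvd : g ∣ A * C := by
    by_contra hcon
    have h1 : ¬ g ∣ A := fun h => hcon (h.mul_right _)
    have h2 : ¬ g ∣ C := fun h => hcon (h.mul_left _)
    apply hord
    rw [Q.ord_div (hG.ne hA) (hG.ne hC), (hQ A hA).2.2 h1, (hQ C hC).2.2 h2, sub_zero]
  obtain ⟨p, hp, hgp⟩ := UniqueFactorizationMonoid.exists_mem_factors_of_dvd hAC hg hdvd
  refine Set.mem_biUnion (Multiset.mem_toFinset.2 hp) ⟨?_, adic_assoc hgp hQ⟩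
  exact hgp.irreducible hg

end

section

variable {k L K : Type} [Field k] [CharZero k] [Field L] [Field K] [Algebra k L] [Algebra k K]
  [Algebra L K] [IsScalarTower k L K] [FiniteDimensional L K]
variable {M : IntermediateField k L} {l : ℕ} {u : Fin l → L}

theorem adic_fin_reg (hG : Gens (k := M) u) (s : K) :
    {Q : Place k L | (∃ g : MvPolynomial (Fin l) M, Irreducible g ∧ Adic Q u g) ∧
      ∃ (P : Place k K) (e : ℕ), Over P Q e ∧ ¬ P.Reg s}.Finite := by
  classical
  have hfin : (⋃ i ∈ (minpoly L s).support, {Q : Place k L |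
      (∃ g : MvPolynomial (Fin l) M, Irreducible g ∧ Adic Q u g) ∧
        Q.ord ((minpoly L s).coeff i) ≠ 0}).Finite :=
    Set.Finite.biUnion (Finset.finite_toSet _) fun i hi =>
      adic_fin hG (Polynomial.mem_support_iff.1 hi)
  refine hfin.subset ?_
  rintro Q ⟨hQ, P, e, hP, hs⟩
  by_contra hcon
  apply hs
  refine reg_of_monic hP (minpoly.monic (Algebra.IsIntegral.isIntegral s)) (minpoly.aeval L s)
    fun i => ?_
  by_cases hi : (minpoly L s).coeff i = 0
  · rw [hi]
    exact Q.reg_zero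
  · right
    by_contra hneg
    exact hcon (Set.mem_biUnion (Polynomial.mem_support_iff.2 hi) ⟨hQ, fun h => hneg h.ge⟩)

/-- finiteness of zeros and poles in an extension -/
theorem adic_fin_up (hG : Gens (k := M) u) {s : K} (hs : s ≠ 0) :
    {Q : Place k L | (∃ g : MvPolynomial (Fin l) M, Irreducible g ∧ Adic Q u g) ∧
      ∃ (P : Place k K) (e : ℕ), Over P Q e ∧ P.ord s ≠ 0}.Finite := by
  refine ((adic_fin_reg hG s).union (adic_fin_reg hG s⁻¹)).subset ?_
  rintro Q ⟨hQ, P, e, hP, h0⟩
  by_cases h1 : P.Reg s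
  · right
    refine ⟨hQ, P, e, hP, fun h2 => h0 ?_⟩
    rw [P.reg_iff hs] at h1
    rw [P.reg_iff (inv_ne_zero hs), P.ord_inv] at h2
    omega
  · exact Or.inl ⟨hQ, P, e, hP, h1⟩

end

section

variable {k L : Type} [Field k] [CharZero k] [Field L] [Algebra k L]
variable {M : IntermediateField k L} {r e l : ℕ} {z : Fin r → L} {J : Fin e → Fin r}
  {D : Fin e → Derivation k L L} {u : Fin l → L} {H : Fin l → Derivation k L L}

/-- **Monomials which are algebraically independent on the places of the irreducible polynomials.** -/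
theorem adic_mono {n : ℕ} (gs : Gs ⊥ M z J D u H) (hn : Algebra.trdeg k L = n)
    (htop : IntermediateField.adjoin k (Set.range z) = ⊤)
    {g : MvPolynomial (Fin l) M} (hg : Irreducible g) {Q : Place k L} (hQ : Adic Q u g) :
    ∃ a : Fin (n - 1) → Fin r → ℤ, ∀ G : MvPolynomial (Fin (n - 1)) k, G ≠ 0 →
      MvPolynomial.aeval (fun i => mono z (a i)) G ≠ 0 ∧
      Q.ord (MvPolynomial.aeval (fun i => mono z (a i)) G) = 0 := by
  classical
  have hz : ∀ j, z j ≠ 0 := gs.ht
  have hu0 := gs.u_ne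
  choose m hm c hc using gs.tc
  choose bb hbb using gs.ub
  have hm0 : ∀ i, m i ≠ 0 := by
    intro i h
    have h1 := hc i
    rw [h, zero_mul] at h1
    exact hz i h1
  -- the `m i` are monomials
  obtain ⟨aa, haa⟩ : ∃ aa : Fin r → Fin r → ℤ, ∀ i, m i = mono z (aa i) := by
    have h1 : ∀ i, ∃ a : Fin r → ℤ, m i = mono z a := by
      intro i
      refine ⟨Pi.single i 1 - ∑ j, c i j • bb j, ?_⟩
      rw [mono_sub hz, mono_single, mono_sum hz]
      have h2 : mono u (c i) = ∏ j, mono z (c i j • bb j) := by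
        rw [mono]
        refine Finset.prod_congr rfl fun j _ => ?_
        rw [hbb j, mono_smul]
      rw [← h2, eq_div_iff (mono_ne hu0 _), ← hc i]
    choose aa haa using h1
    exact ⟨aa, haa⟩
  -- corrections along the torus
  have hcorr : ∀ E : Derivation k L L, ∃ E' : Derivation k L L, (∀ w ∈ M, E' w = E w) ∧
      ∀ j, E' (u j) = 0 := by
    intro E
    refine ⟨E - ∑ j, (E (u j) / u j) • H j, fun w hw => ?_, fun i => ?_⟩
    · rw [Derivation.sub_apply, sum_smul_apply, Finset.sum_eq_zero, sub_zero]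
      intro j _
      rw [gs.hk j w hw, mul_zero]
    · rw [Derivation.sub_apply, sum_smul_apply, Finset.sum_eq_single i]
      · rw [gs.hu, if_pos rfl, div_mul_cancel₀ _ (hu0 i), sub_self]
      · intro j _ hj
        rw [gs.hu, if_neg hj, mul_zero]
      · intro h
        exact absurd (Finset.mem_univ i) h
  have hEz : ∀ E' : Derivation k L L, (∀ j, E' (u j) = 0) → ∀ i,
      E' (z i) = E' (m i) * mono u (c i) := by
    intro E' h1 i
    have h2 : E' (mono u (c i)) = 0 := by
      rw [logd_mono E' hu0, Finset.sum_eq_zero, zero_mul]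
      intro j _
      rw [h1, zero_div, mul_zero]
    conv_lhs => rw [hc i]
    rw [E'.leibniz, h2, smul_zero, zero_add, smul_eq_mul, mul_comm]
  obtain ⟨μ, w, hwm, hwi, hwk⟩ := pick hn (⊥ : IntermediateField k L) (Set.range m)
  have hwM : ∀ i, w i ∈ M := by
    intro i
    obtain ⟨j, hj⟩ := hwm i
    rw [← hj]
    exact hm j
  have hMw : M = acl k (Set.range w) := by
    apply le_antisymm
    · intro y hy
      by_contra hcon
      obtain ⟨E, hE1, hE2⟩ := exists_der_ne (acl_closed (Set.range w)) hcon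
      have h1 : ∀ x ∈ Set.range m, E x = 0 := hwk E (fun x hx => by
        rw [IntermediateField.mem_bot] at hx
        obtain ⟨c, rfl⟩ := hx
        exact E.map_algebraMap c) (fun i => hE1 _ (subset_acl _ ⟨i, rfl⟩))
      obtain ⟨E', h2, h3⟩ := hcorr E
      have h4 : ∀ i, E' (z i) = 0 := fun i => by
        rw [hEz E' h3, h2 _ (hm i), h1 _ ⟨i, rfl⟩, zero_mul]
      have h5 : IntermediateField.adjoin k (Set.range z) ≤ consts E' := by
        rw [IntermediateField.adjoin_le_iff]
        rintro _ ⟨i, rfl⟩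
        exact h4 i
      rw [htop] at h5
      have h6 : E' y = 0 := h5 (x := y) trivial
      rw [h2 y hy, hE2] at h6
      exact one_ne_zero h6
    · refine acl_le gs.closed ?_
      rintro y ⟨i, rfl⟩
      exact hwM i
  have huw : AlgebraicIndependent k (Sum.elim u w) := by
    have h1 := tower (bot_le : ⊥ ≤ M) hwi hwM gs.ind
    exact h1.restrictScalars (R := k) (algebraMap k (⊥ : IntermediateField k L)).injective
  have hnμ := card_coord hn (full_coord hMw huw gs.top)
  have hG := gens_of_top gs.ind gs.top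
  obtain ⟨Q', hQ', v, hv, hvQ⟩ := adic_div hG hg hwM huw hnμ
  obtain rfl : Q = Q' := adic_uniq hG hg hQ hQ'
  have hmon : ∀ i, ∃ a : Fin r → ℤ, v i = mono z a := by
    intro i
    rcases hv i with ⟨j, hj⟩ | ⟨a, ha⟩
    · exact ⟨bb j, by rw [hj, hbb]⟩
    · obtain ⟨j, hj⟩ := hwm a
      exact ⟨aa j, by rw [ha, ← hj, haa]⟩
  choose a ha using hmon
  refine ⟨a, fun G hG => ?_⟩
  have h1 : (fun i => mono z (a i)) = v := funext fun i => (ha i).symm
  rw [h1]
  exact hvQ G hG

end

end Pool.Agent.D0H90.FC
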