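import Pool.Agent.D0H90.FC.Rel

/-!
Algebraically independent functions on the places of the irreducible polynomials: relative form.
-/

set_option autoImplicit false
set_option linter.unusedSectionVars false
set_option linter.overlappingInstances false

open FF Pool.Agent.W602.GT Pool.Agent.W603.LV Pool.Agent.W619.PQ Pool.Agent.TH122.AB
open Pool.Agent.TH585.SV Pool.Agent.Y172 Pool.Agent.D0H90.WA

namespace Pool.Agent.D0H90.FC

section

variable {k L : Type} [Field k] [CharZero k] [Field L] [Algebra k L]
variable {F M : IntermediateField k L} {r e l : ℕ} {z : Fin r → L} {J : Fin e → Fin r}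
  {D : Fin e → Derivation k L L} {u : Fin l → L} {H : Fin l → Derivation k L L}

/-- **Elements of the base and monomials which are algebraically independent on the places of the
irreducible polynomials.** -/
theorem adic_rel {n p : ℕ} (gs : Gs F M z J D u H) (hn : Algebra.trdeg k L = n)
    {x : Fin p → L} (hx : AlgebraicIndependent k x) (hxF : ∀ i, x i ∈ F)
    (hFx : F ≤ acl k (Set.range x))
    (hgen : IntermediateField.adjoin k ((acl k (F : Set L) : Set L) ∪ Set.range z) = ⊤)
    {g : MvPolynomial (Fin l) M} (hg : Irreducible g) {Q : Place k L} (hQ : Adic Q u g) :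
    ∃ v : Fin (n - 1) → L, (∀ i, (∃ b, v i = x b) ∨ ∃ a : Fin r → ℤ, v i = mono z a) ∧
      ∀ G : MvPolynomial (Fin (n - 1)) k, G ≠ 0 →
        MvPolynomial.aeval v G ≠ 0 ∧ Q.ord (MvPolynomial.aeval v G) = 0 := by
  classical
  have hz : ∀ j, z j ≠ 0 := gs.ht
  have hu0 := gs.u_ne
  choose m hm c hc using gs.tc
  choose bb hbb using gs.ub
  have hm0 : ∀ i, m i ≠ 0 := by
    intro i h
    have h1 := hc i
    rw [h, zero_mul] at h1
    exact hz i h1
  -- the `m i` are monomials
  obtain ⟨aa, haa⟩ : ∃ aa : Fin r → Fin r → ℤ, ∀ i, m i = mono z (aa i) := by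
    have h1 : ∀ i, ∃ a : Fin r → ℤ, m i = mono z a := by
      intro i
      refine ⟨Pi.single i 1 - ∑ j, c i j • bb j, ?_⟩
      rw [mono_sub hz, mono_single, mono_sum hz]
      have h2 : mono u (c i) = ∏ j, mono z (c i j • bb j) := by
        rw [mono]
        refine Finset.prod_congr rfl fun j _ => ?_
        rw [hbb j, mono_smul]
      rw [← h2, eq_div_iff (mono_ne hu0 _), ← hc i]
    choose aa haa using h1
    exact ⟨aa, haa⟩
  -- corrections along the torus
  have hcorr : ∀ E : Derivation k L L, ∃ E' : Derivation k L L, (∀ w ∈ M, E' w = E w) ∧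
      ∀ j, E' (u j) = 0 := by
    intro E
    refine ⟨E - ∑ j, (E (u j) / u j) • H j, fun w hw => ?_, fun i => ?_⟩
    · rw [Derivation.sub_apply, sum_smul_apply, Finset.sum_eq_zero, sub_zero]
      intro j _
      rw [gs.hk j w hw, mul_zero]
    · rw [Derivation.sub_apply, sum_smul_apply, Finset.sum_eq_single i]
      · rw [gs.hu, if_pos rfl, div_mul_cancel₀ _ (hu0 i), sub_self]
      · intro j _ hj
        rw [gs.hu, if_neg hj, mul_zero]
      · intro h
        exact absurd (Finset.mem_univ i) h
  have hEz : ∀ E' : Derivation k L L, (∀ j, E' (u j) = 0) → ∀ i,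
      E' (z i) = E' (m i) * mono u (c i) := by
    intro E' h1 i
    have h2 : E' (mono u (c i)) = 0 := by
      rw [logd_mono E' hu0, Finset.sum_eq_zero, zero_mul]
      intro j _
      rw [h1, zero_div, mul_zero]
    conv_lhs => rw [hc i]
    rw [E'.leibniz, h2, smul_zero, zero_add, smul_eq_mul, mul_comm]
  obtain ⟨μ, w, hwm, hwi, hwk⟩ := pick hn F (Set.range m)
  have hwM : ∀ i, w i ∈ M := by
    intro i
    obtain ⟨j, hj⟩ := hwm i
    rw [← hj]
    exact hm j
  obtain ⟨w', hw'⟩ : ∃ w' : Fin (p + μ) → L, w' = fun i => Sum.elim x w (finSumFinEquiv.symm i) :=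
    ⟨_, rfl⟩
  have hw'M : ∀ i, w' i ∈ M := by
    intro i
    rw [hw']
    beta_reduce
    rcases finSumFinEquiv.symm i with i | i
    · exact gs.le (hxF i)
    · exact hwM i
  have hw'r : Set.range w' = Set.range x ∪ Set.range w := by
    rw [hw', ← Set.Sum.elim_range]
    exact (finSumFinEquiv.symm.surjective).range_comp (Sum.elim x w)
  have hMw : M = acl k (Set.range w') := by
    apply le_antisymm
    · intro y hy
      by_contra hcon
      obtain ⟨E, hE1, hE2⟩ := exists_der_ne (acl_closed (Set.range w')) hcon
      have hEF : Kills E F := by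
        intro f hf
        refine hE1 f ?_
        refine acl_le (acl_closed _) ?_ (hFx hf)
        refine Set.Subset.trans ?_ (subset_acl _)
        rw [hw'r]
        exact Set.subset_union_left
      have h1 : ∀ x ∈ Set.range m, E x = 0 := hwk E hEF fun i => hE1 _ (subset_acl _ (by
        rw [hw'r]
        exact Or.inr ⟨i, rfl⟩))
      obtain ⟨E', h2, h3⟩ := hcorr E
      have h4 : ∀ i, E' (z i) = 0 := fun i => by
        rw [hEz E' h3, h2 _ (hm i), h1 _ ⟨i, rfl⟩, zero_mul]
      have hE'F : Kills E' F := fun f hf => by rw [h2 f (gs.le hf), hEF f hf]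
      have h5 : IntermediateField.adjoin k ((acl k (F : Set L) : Set L) ∪ Set.range z) ≤
          consts E' := by
        rw [IntermediateField.adjoin_le_iff]
        rintro y (hy | ⟨i, rfl⟩)
        · exact kills_acl (D := E') hE'F y hy
        · exact h4 i
      rw [hgen] at h5
      have h6 : E' y = 0 := h5 (x := y) trivial
      rw [h2 y hy, hE2] at h6
      exact one_ne_zero h6
    · refine acl_le gs.closed ?_
      rintro y ⟨i, rfl⟩
      exact hw'M i
  have huw : AlgebraicIndependent k (Sum.elim u w') := by
    have h1 := tower gs.le hwi hwM gs.ind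
    have h2 : AlgebraicIndependent k fun i => (⟨x i, hxF i⟩ : F) :=
      AlgebraicIndependent.of_comp F.val hx
    have h3 := h2.sumElim_comp h1
    have h4 := h3.comp (fun i : Fin l ⊕ Fin (p + μ) =>
      Sum.elim (fun j => Sum.inl (Sum.inl j)) (fun j => Sum.elim (fun b => Sum.inr b)
        (fun b => Sum.inl (Sum.inr b)) (finSumFinEquiv.symm j)) i) (by
        rintro (a | a) (b | b) hab
        · simpa using hab
        · simp only [Sum.elim_inl, Sum.elim_inr] at hab
          rcases hb : finSumFinEquiv.symm b with b' | b'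
          · rw [hb] at hab
            simp at hab
          · rw [hb] at hab
            simp at hab
        · simp only [Sum.elim_inl, Sum.elim_inr] at hab
          rcases ha : finSumFinEquiv.symm a with a' | a'
          · rw [ha] at hab
            simp at hab
          · rw [ha] at hab
            simp at hab
        · simp only [Sum.elim_inr] at hab
          congr 1
          apply finSumFinEquiv.symm.injective
          rcases ha : finSumFinEquiv.symm a with a' | a' <;>
            rcases hb : finSumFinEquiv.symm b with b' | b' <;> rw [ha, hb] at hab <;>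
            simp at hab ⊢
          · exact hab
          · exact hab)
    convert h4 using 1
    funext i
    rcases i with i | i
    · rfl
    · rw [Function.comp_apply, Sum.elim_inr, Sum.elim_inr, hw']
      beta_reduce
      rcases finSumFinEquiv.symm i with i | i
      · rfl
      · rfl
  have hnμ := card_coord hn (full_coord hMw huw gs.top)
  have hG := gens_of_top gs.ind gs.top
  obtain ⟨Q', hQ', v, hv, hvQ⟩ := adic_div hG hg hw'M huw hnμ
  obtain rfl : Q = Q' := adic_uniq hG hg hQ hQ'
  refine ⟨v, fun i => ?_, fun G hG => hvQ G hG⟩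
  rcases hv i with ⟨j, hj⟩ | ⟨a, ha⟩
  · exact Or.inr ⟨bb j, by rw [hj, hbb]⟩
  · rw [ha, hw']
    beta_reduce
    rcases finSumFinEquiv.symm a with a | a
    · exact Or.inl ⟨a, rfl⟩
    · obtain ⟨j, hj⟩ := hwm a
      exact Or.inr ⟨aa j, by rw [Sum.elim_inr, ← hj, haa]⟩

end

end Pool.Agent.D0H90.FC
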