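import Pool.Agent.D0H90.FC.Fin

/-!
Sections of multiples of `K_X + Δ` from the products of the sections of one multiple and forms which
are regular, up to `Δ`, along the divisors on which the ratios of these sections are not constant.
-/

set_option autoImplicit false
set_option linter.unusedSectionVars false
set_option linter.overlappingInstances false

open FF Pool.Agent.W602.GT Pool.Agent.W603.LV Pool.Agent.TH122.AB Pool.Agent.TH585.SV
open Pool.Agent.TH766.MC Pool.Agent.Y172 Pool.Agent.Y191 Pool.Agent.D0H90.WA Pool.Agent.D0H90.KT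

namespace Pool.Agent.D0H90.FC

section

variable {K : Type} [Field K] [Algebra ℂ K] {n : ℕ}

theorem geR_iff {P : Place ℂ K} {r : ℝ} {z : K} : GeR P r z ↔ Ge P ⌈r⌉ z := by
  unfold GeR Ge
  rw [Int.ceil_le]

theorem geR_of {P : Place ℂ K} {c : ℤ} {z : K} (h : Ge P c z) : GeR P c z := by
  rcases h with h | h
  · exact Or.inl h
  · right
    exact_mod_cast h

theorem geR_sum {P : Place ℂ K} {r : ℝ} {ι : Type*} (s : Finset ι) {f : ι → K}
    (h : ∀ i ∈ s, GeR P r (f i)) : GeR P r (∑ i ∈ s, f i) := by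
  rw [geR_iff]
  exact Ge.sum s _ fun i hi => geR_iff.1 (h i hi)

theorem geR_prod {P : Place ℂ K} {ι : Type*} (s : Finset ι) {r : ι → ℝ} {f : ι → K}
    (h : ∀ i ∈ s, GeR P (r i) (f i)) : GeR P (∑ i ∈ s, r i) (∏ i ∈ s, f i) := by
  classical
  induction s using Finset.induction_on with
  | empty =>
    right
    simp [P.ord_one]
  | insert a s ha ih =>
    rw [Finset.sum_insert ha, Finset.prod_insert ha]
    exact (h a (Finset.mem_insert_self _ _)).mul (ih fun i hi => h i (Finset.mem_insert_of_mem hi))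

/-- **A form in the sections which vanishes at a given place.** -/
theorem exists_van {p : ℕ} {P : Place ℂ K} {w : Fin (p + 1) → K} (hw0 : w 0 = 1)
    (hw : ∀ a, w a ≠ 0)
    (hP : ¬ ∀ f ∈ IntermediateField.adjoin ℂ (Set.range fun i : Fin p => w i.succ), f ≠ 0 →
      P.ord f = 0) :
    ∃ (j0 : Fin (p + 1)) (h : MvPolynomial (Fin (p + 1)) ℂ),
      MvPolynomial.aeval (fun a => w a / w j0) h ≠ 0 ∧
      Ge P 1 (MvPolynomial.aeval (fun a => w a / w j0) h) := by
  classical
  obtain ⟨j0, -, hj0⟩ := Finset.exists_min_image Finset.univ (fun j => P.ord (w j))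
    ⟨0, Finset.mem_univ _⟩
  obtain ⟨f, hf⟩ : ∃ f : Fin (p + 1) → K, f = fun a => w a / w j0 := ⟨_, rfl⟩
  have hfr : ∀ a, Ge P 0 (f a) := by
    intro a
    right
    rw [hf]
    beta_reduce
    rw [P.ord_div (hw a) (hw j0)]
    have := hj0 a (Finset.mem_univ _)
    omega
  have hreg : ∀ h : MvPolynomial (Fin (p + 1)) ℂ, Ge P 0 (MvPolynomial.aeval f h) := by
    intro h
    rw [MvPolynomial.aeval_def, MvPolynomial.eval₂_eq']
    refine Ge.sum _ _ fun α _ => ?_
    have h1 : Ge P 0 (algebraMap ℂ K (h.coeff α)) := by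
      by_cases h0 : h.coeff α = 0
      · left
        rw [h0, map_zero]
      · exact Or.inr (P.ord_const h0).ge
    have h2 : Ge P 0 (∏ i, f i ^ α i) := by
      have h3 := geR_prod (P := P) Finset.univ (r := fun _ => 0) (f := fun i => f i ^ α i)
        fun i _ => by
          have := geR_of ((hfr i).pow (α i))
          simpa using this
      simp only [Finset.sum_const_zero] at h3
      rw [geR_iff] at h3
      simpa using h3
    simpa using h1.mul h2
  by_contra hcon
  push Not at hcon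
  apply hP
  have hord : ∀ h : MvPolynomial (Fin (p + 1)) ℂ, MvPolynomial.aeval f h ≠ 0 →
      P.ord (MvPolynomial.aeval f h) = 0 := by
    intro h h0
    have h1 := hcon j0 h (by rw [hf] at h0; exact h0)
    rcases hreg h with h2 | h2
    · exact absurd h2 h0
    · by_contra h3
      apply h1
      right
      rw [hf] at h2 h3
      omega
  have hle : IntermediateField.adjoin ℂ (Set.range fun i : Fin p => w i.succ) ≤
      IntermediateField.adjoin ℂ (Set.range f) := by
    rw [IntermediateField.adjoin_le_iff]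
    rintro _ ⟨i, rfl⟩
    have h1 : w i.succ = f i.succ / f 0 := by
      rw [hf]
      beta_reduce
      rw [hw0, div_div_div_cancel_right₀ (hw j0), div_one]
    change w i.succ ∈ _
    rw [h1]
    exact div_mem (IntermediateField.subset_adjoin ℂ _ ⟨_, rfl⟩)
      (IntermediateField.subset_adjoin ℂ _ ⟨_, rfl⟩)
  intro x hx hx0
  obtain ⟨a, b, hab⟩ := (IntermediateField.mem_adjoin_range_iff ℂ f x).1 (hle hx)
  have hb0 : MvPolynomial.aeval f b ≠ 0 := by
    intro h
    rw [hab, h, div_zero] at hx0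
    exact hx0 rfl
  have ha0 : MvPolynomial.aeval f a ≠ 0 := by
    intro h
    rw [hab, h, zero_div] at hx0
    exact hx0 rfl
  rw [hab, P.ord_div ha0 hb0, hord a ha0, hord b hb0, sub_self]

/-- pluricanonical forms at a divisorial place have bounded poles -/
theorem pluri_pole [Algebra.EssFiniteType ℂ K] (hn : Algebra.trdeg ℂ K = n) {P : Place ℂ K}
    (hP : Divisorial n P) {m : ℕ} {η : (Fin n → Derivation ℂ K K) → K} (hη : IsPluri m η) :
    ∃ c : ℕ, ∀ G : Fin n → Derivation ℂ K K, (∀ i, DerReg P (G i)) → Ge P (-(c : ℤ)) (η G) := by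
  obtain ⟨yP, EP, i0, hl⟩ := exists_loc hn hP
  refine ⟨(P.ord (η EP)).natAbs, fun G hG => ?_⟩
  have h2 := pluri_coord hl.bas hl.dual hη G
  have h3 := ((det_reg hl hG).pow m).mul (ge_ord P (η EP))
  rw [← h2] at h3
  refine h3.mono ?_
  rw [mul_zero, zero_add]
  omega

/-- **Products of sections and forms.** -/
theorem iit_comb [Algebra.EssFiniteType ℂ K] (hn : Algebra.trdeg ℂ K = n) {p lam m N : ℕ}
    {X : Set (Place ℂ K)} {δ : Place ℂ K → ℝ} (hδ0 : ∀ P ∈ X, 0 ≤ δ P)
    (hXd : ∀ P ∈ X, Divisorial n P)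
    (hfin : ∀ f : K, f ≠ 0 → {P | P ∈ X ∧ P.ord f ≠ 0}.Finite)
    {Θ : Fin (p + 1) → (Fin n → Derivation ℂ K K) → K} (hΘ : ∀ a, PairSec n X δ N (Θ a))
    {D : Fin n → Derivation ℂ K K} (hD : IsFrame D) (h0 : Θ 0 D ≠ 0) (hm : 0 < m)
    {η : Fin (lam + 1) → (Fin n → Derivation ℂ K K) → K} (hη : ∀ b, IsPluri m (η b))
    (hη0 : η 0 D ≠ 0)
    (hind : AlgebraicIndependent ℂ (Sum.elim (fun i : Fin p => Θ i.succ D / Θ 0 D)
      fun b : Fin lam => η b.succ D / η 0 D))
    (hhor : ∀ P ∈ X, (∀ f ∈ IntermediateField.adjoin ℂ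
      (Set.range fun i : Fin p => Θ i.succ D / Θ 0 D), f ≠ 0 → P.ord f = 0) →
      ∀ b, ∀ G : Fin n → Derivation ℂ K K, (∀ i, DerReg P (G i)) → GeR P (-(m * δ P)) (η b G)) :
    KodairaGe n X δ (p + lam) := by
  classical
  obtain ⟨w, hw⟩ : ∃ w : Fin (p + 1) → K, ∀ a, w a = Θ a D / Θ 0 D := ⟨_, fun _ => rfl⟩
  have hw0 : w 0 = 1 := by rw [hw, div_self h0]
  have hwi : AlgebraicIndependent ℂ fun i : Fin p => w i.succ := by
    have h1 := hind.comp Sum.inl Sum.inl_injective
    simp only [Sum.elim_comp_inl] at h1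
    have h2 : (fun i : Fin p => w i.succ) = fun i : Fin p => Θ i.succ D / Θ 0 D :=
      funext fun i => hw _
    rw [h2]
    exact h1
  have hwne : ∀ a, w a ≠ 0 := by
    intro a
    refine Fin.cases ?_ (fun i => ?_) a
    · rw [hw0]
      exact one_ne_zero
    · exact hwi.ne_zero i
  -- the values of the sections
  have hval : ∀ G a, Θ a G = w a * Θ 0 G := by
    intro G a
    obtain ⟨d, hd⟩ := frame_pluri hD G
    rw [hd N _ (hΘ a).1, hd N _ (hΘ 0).1, hw]
    field_simp
  -- the forms in the sections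
  obtain ⟨Mul, hMul⟩ : ∃ Mul : ℕ → K → Prop, ∀ d γ, Mul d γ ↔ ∀ P ∈ X,
      ∀ G : Fin n → Derivation ℂ K K, (∀ i, DerReg P (G i)) →
        GeR P (-((N * d : ℕ) * δ P)) (Θ 0 G ^ d * γ) := ⟨_, fun _ _ => Iff.rfl⟩
  have hMulmul : ∀ d d' γ γ', Mul d γ → Mul d' γ' → Mul (d + d') (γ * γ') := by
    intro d d' γ γ' h h'
    rw [hMul] at h h' ⊢
    intro P hP G hG
    have h1 := (h P hP G hG).mul (h' P hP G hG)
    have e1 : Θ 0 G ^ d * γ * (Θ 0 G ^ d' * γ') = Θ 0 G ^ (d + d') * (γ * γ') := by ring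
    rw [e1] at h1
    refine h1.mono (le_of_eq ?_)
    push_cast
    ring
  have hMul1 : Mul 0 1 := by
    rw [hMul]
    intro P hP G hG
    right
    simp [P.ord_one]
  have hMulw : ∀ a, Mul 1 (w a) := by
    intro a
    rw [hMul]
    intro P hP G hG
    have h1 := (hΘ a).2 P hP (hXd P hP) G hG
    have e1 : Θ 0 G ^ 1 * w a = Θ a G := by rw [hval G a]; ring
    rw [e1, mul_one]
    exact h1
  have hMulpow : ∀ d γ c, Mul d γ → Mul (c * d) (γ ^ c) := by
    intro d γ c h
    induction c with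
    | zero =>
      rw [zero_mul, pow_zero]
      exact hMul1
    | succ c ih =>
      rw [Nat.succ_mul, pow_succ]
      exact hMulmul _ _ _ _ ih h
  have hMulprod : ∀ {ι : Type} (s : Finset ι) (d : ι → ℕ) (γ : ι → K), (∀ i ∈ s, Mul (d i) (γ i)) →
      Mul (∑ i ∈ s, d i) (∏ i ∈ s, γ i) := by
    intro ι s d γ h
    induction s using Finset.induction_on with
    | empty =>
      rw [Finset.sum_empty, Finset.prod_empty]
      exact hMul1
    | insert a s ha ih =>
      rw [Finset.sum_insert ha, Finset.prod_insert ha]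
      exact hMulmul _ _ _ _ (h a (Finset.mem_insert_self _ _))
        (ih fun i hi => h i (Finset.mem_insert_of_mem hi))
  have hMulsum : ∀ {ι : Type} (s : Finset ι) (d : ℕ) (γ : ι → K), (∀ i ∈ s, Mul d (γ i)) →
      Mul d (∑ i ∈ s, γ i) := by
    intro ι s d γ h
    rw [hMul]
    intro P hP G hG
    rw [Finset.mul_sum]
    exact geR_sum s fun i hi => (hMul _ _).1 (h i hi) P hP G hG
  have hMulC : ∀ (c : ℂ) d γ, Mul d γ → Mul d (algebraMap ℂ K c * γ) := by
    intro c d γ h
    rw [hMul] at h ⊢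
    intro P hP G hG
    have h1 : GeR P 0 (algebraMap ℂ K c) := by
      by_cases hc : c = 0
      · left
        rw [hc, map_zero]
      · right
        rw [P.ord_const hc]
        simp
    have h2 := h1.mul (h P hP G hG)
    have e1 : algebraMap ℂ K c * (Θ 0 G ^ d * γ) = Θ 0 G ^ d * (algebraMap ℂ K c * γ) := by ring
    rw [e1, zero_add] at h2
    exact h2
  -- a form which vanishes at a vertical place
  have hvan : ∀ P, P ∈ X → (¬ ∀ f ∈ IntermediateField.adjoin ℂ
      (Set.range fun i : Fin p => w i.succ), f ≠ 0 → P.ord f = 0) →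
      ∃ (d : ℕ) (γ : K), γ ≠ 0 ∧ Mul d γ ∧ ∀ G : Fin n → Derivation ℂ K K,
        (∀ i, DerReg P (G i)) → GeR P (-((N * d : ℕ) * δ P) + 1) (Θ 0 G ^ d * γ) := by
    intro P hP hPv
    obtain ⟨j0, h, h1, h2⟩ := exists_van hw0 hwne hPv
    have hexp : w j0 ^ h.totalDegree * MvPolynomial.aeval (fun a => w a / w j0) h =
        ∑ α ∈ h.support, algebraMap ℂ K (h.coeff α) *
          (w j0 ^ (h.totalDegree - ∑ i, α i) * ∏ i, w i ^ α i) := by
      rw [MvPolynomial.aeval_def, MvPolynomial.eval₂_eq', Finset.mul_sum]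
      refine Finset.sum_congr rfl fun α hα => ?_
      have h3 : ∑ i, α i ≤ h.totalDegree := by
        have h4 := MvPolynomial.le_totalDegree hα
        rwa [Finsupp.sum_fintype _ _ (fun _ => rfl)] at h4
      have h5 : ∏ i, (w i / w j0) ^ α i = (∏ i, w i ^ α i) / w j0 ^ (∑ i, α i) := by
        rw [← Finset.prod_pow_eq_pow_sum, ← Finset.prod_div_distrib]
        exact Finset.prod_congr rfl fun i _ => div_pow _ _ _
      rw [h5]
      have h6 : w j0 ^ h.totalDegree = w j0 ^ (h.totalDegree - ∑ i, α i) * w j0 ^ (∑ i, α i) := by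
        rw [← pow_add]
        congr 1
        omega
      rw [h6]
      have := pow_ne_zero (∑ i, α i) (hwne j0)
      field_simp
    refine ⟨h.totalDegree, w j0 ^ h.totalDegree * MvPolynomial.aeval (fun a => w a / w j0) h,
      mul_ne_zero (pow_ne_zero _ (hwne j0)) h1, ?_, fun G hG => ?_⟩
    · rw [hexp]
      refine hMulsum _ _ _ fun α hα => hMulC _ _ _ ?_
      have h3 : ∑ i, α i ≤ h.totalDegree := by
        have h4 := MvPolynomial.le_totalDegree hα
        rwa [Finsupp.sum_fintype _ _ (fun _ => rfl)] at h4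
      have h4 := hMulmul _ _ _ _ (hMulpow 1 (w j0) (h.totalDegree - ∑ i, α i) (hMulw j0))
        (hMulprod Finset.univ (fun i => α i * 1) (fun i => w i ^ α i)
          fun i _ => hMulpow 1 (w i) (α i) (hMulw i))
      have e1 : (h.totalDegree - ∑ i, α i) * 1 + ∑ i, α i * 1 = h.totalDegree := by
        simp only [mul_one]
        omega
      rwa [e1] at h4
    · have h3 := hMulpow 1 (w j0) h.totalDegree (hMulw j0)
      rw [mul_one, hMul] at h3
      have h4 := (h3 P hP G hG).mul (geR_of h2)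
      have e1 : Θ 0 G ^ h.totalDegree * w j0 ^ h.totalDegree *
          MvPolynomial.aeval (fun a => w a / w j0) h = Θ 0 G ^ h.totalDegree *
          (w j0 ^ h.totalDegree * MvPolynomial.aeval (fun a => w a / w j0) h) := by ring
      rw [e1] at h4
      simpa using h4
  -- the bad places
  obtain ⟨yc, E, hyc, hE⟩ := exists_crd hn
  obtain ⟨Bd, hBd⟩ : ∃ Bd : Set (Place ℂ K), Bd = {P | P ∈ X ∧
      ((∃ j, P.ord (yc j) ≠ 0) ∨ ∃ b, P.ord (η b E) ≠ 0)} := ⟨_, rfl⟩
  have hBfin : Bd.Finite := by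
    have h1 : (⋃ j, {P | P ∈ X ∧ P.ord (yc j) ≠ 0}).Finite :=
      Set.finite_iUnion fun j => hfin _ (hyc.1.ne_zero j)
    have h2 : (⋃ b, {P | P ∈ X ∧ P.ord (η b E) ≠ 0}).Finite := by
      refine Set.finite_iUnion fun b => ?_
      by_cases hb : η b E = 0
      · refine Set.Finite.subset Set.finite_empty ?_
        rintro P ⟨-, h⟩
        rw [hb, P.ord_zero] at h
        exact absurd rfl h
      · exact hfin _ hb
    refine (h1.union h2).subset ?_
    rw [hBd]
    rintro P ⟨hP, ⟨j, hj⟩ | ⟨b, hb⟩⟩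
    · exact Or.inl (Set.mem_iUnion.2 ⟨j, hP, hj⟩)
    · exact Or.inr (Set.mem_iUnion.2 ⟨b, hP, hb⟩)
  have hgood : ∀ P ∈ X, P ∉ Bd → ∀ b, ∀ G : Fin n → Derivation ℂ K K, (∀ i, DerReg P (G i)) →
      Ge P 0 (η b G) := by
    intro P hP hPB b G hG
    rw [hBd] at hPB
    have h1 : ∀ j, P.ord (yc j) = 0 := by
      intro j
      by_contra h
      exact hPB ⟨hP, Or.inl ⟨j, h⟩⟩
    have h2 : P.ord (η b E) = 0 := by
      by_contra h
      exact hPB ⟨hP, Or.inr ⟨b, h⟩⟩
    have h3 : Ge P 0 (Matrix.of fun i j => G i (yc j)).det :=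
      ge_det P _ _ (fun _ _ => 0) (fun a b => hG a _ (Or.inr (h1 b).ge)) fun σ => by simp
    have h4 := (h3.pow m).mul (ge_ord P (η b E))
    rw [← pluri_coord hyc hE (hη b) G, h2] at h4
    simpa using h4
  have hpole : ∀ P, ∃ c : ℕ, P ∈ X → ∀ b, ∀ G : Fin n → Derivation ℂ K K,
      (∀ i, DerReg P (G i)) → Ge P (-(c : ℤ)) (η b G) := by
    intro P
    by_cases hP : P ∈ X
    · choose c hc using fun b => pluri_pole hn (hXd P hP) (hη b)
      refine ⟨∑ b, c b, fun _ b G hG => (hc b G hG).mono ?_⟩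
      have h1 : c b ≤ ∑ b, c b := Finset.single_le_sum (f := c) (fun _ _ => Nat.zero_le _)
        (Finset.mem_univ b)
      omega
    · exact ⟨0, fun h => absurd h hP⟩
  choose c hc using hpole
  obtain ⟨V, hV⟩ : ∃ V : Set (Place ℂ K), V = {P | P ∈ Bd ∧
      ¬ ∀ f ∈ IntermediateField.adjoin ℂ (Set.range fun i : Fin p => w i.succ), f ≠ 0 →
        P.ord f = 0} := ⟨_, rfl⟩
  have hVfin : V.Finite := hBfin.subset (by rw [hV]; exact fun P hP => hP.1)
  have hvan' : ∀ P, ∃ (d : ℕ) (γ : K), P ∈ V → γ ≠ 0 ∧ Mul d γ ∧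
      ∀ G : Fin n → Derivation ℂ K K, (∀ i, DerReg P (G i)) →
        GeR P (-((N * d : ℕ) * δ P) + 1) (Θ 0 G ^ d * γ) := by
    intro P
    by_cases hP : P ∈ V
    · rw [hV, hBd] at hP
      obtain ⟨d, γ, h⟩ := hvan P hP.1.1 hP.2
      exact ⟨d, γ, fun _ => h⟩
    · exact ⟨0, 1, fun h => absurd h hP⟩
  choose d γ hγ using hvan'
  obtain ⟨dd, hdd⟩ : ∃ dd, dd = ∑ P ∈ hVfin.toFinset, c P * d P := ⟨_, rfl⟩
  obtain ⟨Γ, hΓ⟩ : ∃ Γ, Γ = ∏ P ∈ hVfin.toFinset, γ P ^ c P := ⟨_, rfl⟩
  have hΓ0 : Γ ≠ 0 := by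
    rw [hΓ, Finset.prod_ne_zero_iff]
    intro P hP
    exact pow_ne_zero _ (hγ P ((Set.Finite.mem_toFinset _).1 hP)).1
  have hΓM : Mul dd Γ := by
    rw [hdd, hΓ]
    exact hMulprod _ _ _ fun P hP => hMulpow _ _ _ (hγ P ((Set.Finite.mem_toFinset _).1 hP)).2.1
  have hΓV : ∀ P ∈ V, ∀ G : Fin n → Derivation ℂ K K, (∀ i, DerReg P (G i)) →
      GeR P (-((N * dd : ℕ) * δ P) + c P) (Θ 0 G ^ dd * Γ) := by
    intro P hP G hG
    have hPf : P ∈ hVfin.toFinset := (Set.Finite.mem_toFinset _).2 hP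
    have hPX : P ∈ X := by
      rw [hV, hBd] at hP
      exact hP.1.1
    have h1 := ((hγ P hP).2.2 G hG).pow (c P)
    have h2 : Mul (∑ P' ∈ hVfin.toFinset.erase P, c P' * d P')
        (∏ P' ∈ hVfin.toFinset.erase P, γ P' ^ c P') :=
      hMulprod _ _ _ fun P' hP' => hMulpow _ _ _
        (hγ P' ((Set.Finite.mem_toFinset _).1 (Finset.mem_of_mem_erase hP'))).2.1
    rw [hMul] at h2
    have h3 := h1.mul (h2 P hPX G hG)
    have e1 : dd = c P * d P + ∑ P' ∈ hVfin.toFinset.erase P, c P' * d P' := by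
      rw [hdd, ← Finset.add_sum_erase _ (fun P => c P * d P) hPf]
    have e2 : Γ = γ P ^ c P * ∏ P' ∈ hVfin.toFinset.erase P, γ P' ^ c P' := by
      rw [hΓ, ← Finset.mul_prod_erase _ (fun P => γ P ^ c P) hPf]
    have e3 : (Θ 0 G ^ d P * γ P) ^ c P * (Θ 0 G ^ (∑ P' ∈ hVfin.toFinset.erase P, c P' * d P') *
        ∏ P' ∈ hVfin.toFinset.erase P, γ P' ^ c P') = Θ 0 G ^ dd * Γ := by
      rw [e1, e2, mul_pow, ← pow_mul, mul_comm (d P), pow_add]
      ring
    rw [e3] at h3
    refine h3.mono (le_of_eq ?_)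
    rw [e1]
    push_cast
    ring
  -- the sections
  obtain ⟨ω, hω⟩ : ∃ ω : Fin (p + 1) → Fin (lam + 1) → (Fin n → Derivation ℂ K K) → K,
      ∀ a b G, ω a b G = (Θ 0 G ^ dd * Γ) * (Θ a G * η b G) := ⟨_, fun _ _ _ => rfl⟩
  have hsec : ∀ a b, PairSec n X δ (N * dd + (N + m)) (ω a b) := by
    intro a b
    refine ⟨fun A G => ?_, fun P hP hPd G hG => ?_⟩
    · rw [hω, hω, (hΘ 0).1, (hΘ a).1, hη b]
      ring
    · change GeR P _ (ω a b G)
      rw [hω]
      have hΘa : GeR P (-(N * δ P)) (Θ a G) := (hΘ a).2 P hP hPd G hG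
      have hδ := hδ0 P hP
      have hM1 := (hMul _ _).1 hΓM P hP G hG
      by_cases hPB : P ∈ Bd
      · by_cases hPv : ∀ f ∈ IntermediateField.adjoin ℂ (Set.range fun i : Fin p => w i.succ),
            f ≠ 0 → P.ord f = 0
        · have h1 := hhor P hP (by
            have h2 : (fun i : Fin p => w i.succ) = fun i : Fin p => Θ i.succ D / Θ 0 D :=
              funext fun i => hw _
            rw [← h2]
            exact hPv) b G hG
          refine (hM1.mul (hΘa.mul h1)).mono (le_of_eq ?_)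
          push_cast
          ring
        · have hPV : P ∈ V := by
            rw [hV]
            exact ⟨hPB, hPv⟩
          have h1 := (hΓV P hPV G hG).mul (hΘa.mul (geR_of (hc P hP b G hG)))
          refine h1.mono ?_
          push_cast
          have : (0 : ℝ) ≤ m * δ P := by positivity
          linarith
      · have h1 := hM1.mul (hΘa.mul (geR_of (hgood P hP hPB b G hG)))
        refine h1.mono ?_
        push_cast
        have : (0 : ℝ) ≤ m * δ P := by positivity
        linarith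
  have hη0' : ∀ a b, ω a b D = (Θ 0 D ^ dd * Γ * Θ 0 D) * (w a * η b D) := by
    intro a b
    rw [hω, hval D a]
    ring
  have hne : Θ 0 D ^ dd * Γ * Θ 0 D ≠ 0 :=
    mul_ne_zero (mul_ne_zero (pow_ne_zero _ h0) hΓ0) h0
  refine ⟨N * dd + (N + m), by omega, Fin.cons (ω 0 0) fun i => Sum.elim (fun i => ω i.succ 0)
    (fun i => ω 0 i.succ) (finSumFinEquiv.symm i), fun j => ?_, D, ?_, ?_⟩
  · refine Fin.cases ?_ (fun i => ?_) j
    · exact hsec 0 0
    · rw [Fin.cons_succ]
      rcases finSumFinEquiv.symm i with i | i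
      · exact hsec _ _
      · exact hsec _ _
  · rw [Fin.cons_zero, hη0', hw0, one_mul]
    exact mul_ne_zero hne hη0
  · have h2 := hind.comp (fun i : Fin (p + lam) => finSumFinEquiv.symm i)
      finSumFinEquiv.symm.injective
    convert h2 using 1
    funext i
    rw [Fin.cons_succ, Fin.cons_zero, hη0', hw0, one_mul, Function.comp_apply]
    rcases finSumFinEquiv.symm i with i | i
    · change ω i.succ 0 D / _ = Θ i.succ D / Θ 0 D
      rw [hη0', ← hw i.succ]
      field_simp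
    · change ω 0 i.succ D / _ = η i.succ D / η 0 D
      rw [hη0', hw0, one_mul]
      field_simp

end

end Pool.Agent.D0H90.FC
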