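import Pool.Agent.D0H90.FC.Place

/-!
Weak abundance for finite covers of closed subvarieties of tori, on the function field of the pair.
-/

set_option autoImplicit false
set_option linter.unusedSectionVars false
set_option linter.overlappingInstances false

open FF Pool.Agent.W602.GT Pool.Agent.W603.LV Pool.Agent.W619.PQ Pool.Agent.TH122.AB
open Pool.Agent.TH585.SV Pool.Agent.Y172 Pool.Agent.Y191 Pool.Agent.D0H90.WA Pool.Agent.D0H90.KT

namespace Pool.Agent.D0H90.FC

section

variable {K : Type} [Field K] [Algebra ℂ K] {N n : ℕ} {y : Fin (N + 1) → K}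

theorem grow_dims (hy : NormalModel y) (hn : Algebra.trdeg ℂ K = n) {Δ : Place ℂ K → ℚ}
    (hΔ : Effective y Δ) {κ : ℕ} (h : Grow y n Δ κ) : kodairaDim y n Δ = (κ : WithBot ℕ) ∧
      ∀ A, Effective y A → Integral y A → numericalDim y n Δ A = (κ : EReal) := by
  obtain ⟨⟨E, hE, hup⟩, m0, hm0, ω, hω, E', h4, h5⟩ := h
  exact dims hΔ hE hup hm0 (ω := ω) (fun j => ⟨(hω j).1, fun P hP G hG => by
    rcases (hω j).2 P hP (hP.divisorial hy hn) G hG with h6 | h6
    · exact Or.inl h6
    · right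
      have e1 : (m0 • Δ) P = m0 * Δ P := by rw [Pi.smul_apply, nsmul_eq_mul]
      rw [e1]
      have h7 : ((-(m0 * Δ P) : ℚ) : ℝ) ≤ ((P.ord (ω j G) : ℚ) : ℝ) := by
        push_cast
        exact h6
      exact_mod_cast h7⟩) h4 h5

theorem alg_adjoin_mem {r : ℕ} {z : Fin r → K} (j : Fin r) :
    z j ∈ IntermediateField.adjoin ℂ (Set.range z) :=
  IntermediateField.subset_adjoin ℂ _ ⟨j, rfl⟩

theorem fin_grow (hy : NormalModel y) (hn : Algebra.trdeg ℂ K = n) {Δ : Place ℂ K → ℚ}
    (hΔ : Effective y Δ) (hLC : LogCanonical y n Δ) {r : ℕ} {z : Fin r → K} (hz : ∀ j, z j ≠ 0)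
    (halg : ∀ f : K, IsAlgebraic (IntermediateField.adjoin ℂ (Set.range z)) f)
    (hbd : ∀ P, IsPrimeDivisor y P → (∃ j, P.ord (z j) ≠ 0) → 1 ≤ Δ P)
    (huni : ∀ P, IsPrimeDivisor y P → Δ P = 0 → (∀ j, P.ord (z j) = 0) →
      (∃ a : Fin (n - 1) → Fin r → ℤ, ∀ G : MvPolynomial (Fin (n - 1)) ℂ, G ≠ 0 →
        MvPolynomial.aeval (fun i => mono z (a i)) G ≠ 0 ∧
        P.ord (MvPolynomial.aeval (fun i => mono z (a i)) G) = 0) →
      (∃ f ∈ IntermediateField.adjoin ℂ (Set.range z), P.ord f = 1) →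
      ∀ P' : Place ℂ K, (∀ f ∈ IntermediateField.adjoin ℂ (Set.range z),
        0 < P.ord f ↔ 0 < P'.ord f) →
      (∃ f ∈ IntermediateField.adjoin ℂ (Set.range z), P'.ord f = 1) ∧ NonnegDisc y n Δ P') :
    ∃ κ : ℕ, κ ≤ n ∧ Grow y n Δ κ := by
  classical
  obtain ⟨L, hL⟩ : ∃ L, L = IntermediateField.adjoin ℂ (Set.range z) := ⟨_, rfl⟩
  rw [← hL] at halg huni
  have hess := hy.ess
  have hessL : Algebra.EssFiniteType ℂ L := by
    rw [hL]
    exact IntermediateField.essFiniteType_iff.2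
      (IntermediateField.fg_adjoin_of_finite (Set.finite_range z))
  have hfd : FiniteDimensional L K := fin_of_alg hess halg
  have halg' : Algebra.IsAlgebraic L K := ⟨halg⟩
  have hnL : Algebra.trdeg ℂ L = n := by
    have h3 := trdeg_add_eq ℂ L (A := K)
    rw [hn, trdeg_eq_zero (R := L) (A := K), add_zero] at h3
    exact h3
  have hzL : ∀ j, z j ∈ L := fun j => by
    rw [hL]
    exact alg_adjoin_mem j
  have hmono : ∀ a : Fin r → ℤ, ((mono (fun j => (⟨z j, hzL j⟩ : L)) a : L) : K) = mono z a := by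
    intro a
    unfold mono
    push_cast
    rfl
  have haev : ∀ (a : Fin (n - 1) → Fin r → ℤ) (G : MvPolynomial (Fin (n - 1)) ℂ),
      ((MvPolynomial.aeval (fun i => mono (fun j => (⟨z j, hzL j⟩ : L)) (a i)) G : L) : K) =
        MvPolynomial.aeval (fun i => mono z (a i)) G := by
    intro a G
    have h1 := MvPolynomial.aeval_algebraMap_apply (A := L) K
      (fun i => mono (fun j => (⟨z j, hzL j⟩ : L)) (a i)) G
    rw [IntermediateField.algebraMap_apply] at h1
    rw [← h1]
    congr 2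
    funext i
    exact hmono (a i)
  refine cover_grow (L := L) hy hn hnL hΔ hLC (z := fun j => (⟨z j, hzL j⟩ : L))
    (fun j h => hz j (by simpa using congrArg Subtype.val h)) ?_ ?_ ?_
  · -- the field is generated by the `z j`
    rw [← top_le_iff]
    intro x _
    have hx : (x : K) ∈ IntermediateField.adjoin ℂ (Set.range z) := by
      rw [← hL]
      exact x.2
    have h1 : IntermediateField.adjoin ℂ (Set.range z) ≤
        (IntermediateField.adjoin ℂ (Set.range fun j => (⟨z j, hzL j⟩ : L))).map L.val := by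
      rw [IntermediateField.adjoin_le_iff]
      rintro _ ⟨j, rfl⟩
      exact ⟨⟨z j, hzL j⟩, IntermediateField.subset_adjoin ℂ _ ⟨j, rfl⟩, rfl⟩
    obtain ⟨w, hw, hwx⟩ := h1 hx
    have : w = x := Subtype.ext hwx
    rw [← this]
    exact hw
  · rintro P hP ⟨j, hj⟩
    exact hbd P hP ⟨j, hj⟩
  · rintro Q hQz ⟨a, ha⟩ ⟨P, hP, hPQ, hΔP⟩ P' e hP'
    have hPo : ∀ f : L, P.ord (f : K) = Q.ord f := by
      intro f
      have := hPQ.2 f
      rw [Nat.cast_one, one_mul] at this
      exact this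
    have hP'o : ∀ f : L, P'.ord (f : K) = e * Q.ord f := fun f => hP'.2 f
    have he : 1 ≤ e := hP'.1
    obtain ⟨f1, -, hf1⟩ := Q.surj
    obtain ⟨⟨f, hf, hfo⟩, hdis⟩ := huni P hP hΔP (fun j => by
      have := hPo ⟨z j, hzL j⟩
      rw [hQz] at this
      exact this) ⟨a, fun G hG => by
        have h1 := ha G hG
        refine ⟨fun h0 => h1.1 (Subtype.ext ?_), ?_⟩
        · rw [haev, h0]
          rfl
        · rw [← haev, hPo]
          exact h1.2⟩ ⟨f1, f1.2, by rw [hPo, hf1]⟩ P' (fun f hf => by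
        have h1 := hPo ⟨f, hf⟩
        have h2 := hP'o ⟨f, hf⟩
        change P.ord f = _ at h1
        change P'.ord f = _ at h2
        rw [h1, h2]
        constructor
        · intro h
          positivity
        · intro h
          by_contra hcon
          push Not at hcon
          have : (e : ℤ) * Q.ord ⟨f, hf⟩ ≤ 0 :=
            mul_nonpos_of_nonneg_of_nonpos (by positivity) hcon
          omega)
    refine ⟨?_, hdis⟩
    have h2 := hP'o ⟨f, hf⟩
    change P'.ord f = _ at h2
    rw [hfo] at h2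
    have h3 : (e : ℤ) ∣ 1 := ⟨_, h2⟩
    have h4 : e ∣ 1 := by exact_mod_cast h3
    exact Nat.dvd_one.1 h4

end

end Pool.Agent.D0H90.FC
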