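import Pool.Agent.D0H90.FC.RelGrow

/-!
Growth of sections for pairs which are generically finite over families of closed subvarieties of tori
parametrised by the images of maps defined by sections.
-/

set_option autoImplicit false
set_option linter.unusedSectionVars false
set_option linter.overlappingInstances false

open FF Pool.Agent.W602.GT Pool.Agent.W603.LV Pool.Agent.W619.PQ Pool.Agent.TH122.AB
open Pool.Agent.TH585.SV Pool.Agent.TH766.MC Pool.Agent.Y172 Pool.Agent.Y191
open Pool.Agent.D0H90.WA Pool.Agent.D0H90.KT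

namespace Pool.Agent.D0H90.FC

section

variable {L : Type} [Field L] [Algebra ℂ L]

/-- a subfield of transcendence degree `p` is algebraic over `p` independent elements -/
theorem alg_of_trdeg {p : ℕ} {F : IntermediateField ℂ L} (htr : Algebra.trdeg ℂ F = p)
    {x : Fin p → L} (hx : AlgebraicIndependent ℂ x) (hxF : ∀ j, x j ∈ F) :
    ∀ f ∈ F, IsAlgebraic (IntermediateField.adjoin ℂ (Set.range x)) f := by
  classical
  obtain ⟨xL, hxL'⟩ : ∃ xL : Fin p → F, ∀ j, (xL j : L) = x j :=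
    ⟨fun j => ⟨x j, hxF j⟩, fun _ => rfl⟩
  have hindL : AlgebraicIndependent ℂ xL := by
    refine AlgebraicIndependent.of_comp F.val ?_
    have : (F.val ∘ xL) = x := funext hxL'
    rw [this]
    exact hx
  have hbasL : IsTranscendenceBasis ℂ xL := by
    refine hindL.isTranscendenceBasis_of_trdeg_le ?_ ?_
    · rw [htr]
      exact Cardinal.natCast_lt_aleph0
    · rw [htr, Cardinal.mk_fin]
  intro f hf
  have h1 := hbasL.isAlgebraic_field.isAlgebraic ⟨f, hf⟩
  have h2 : IntermediateField.adjoin ℂ (Set.range x) =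
      (IntermediateField.adjoin ℂ (Set.range xL)).map F.val := by
    rw [IntermediateField.adjoin_map]
    congr 1
    ext z
    constructor
    · rintro ⟨j, rfl⟩
      exact ⟨_, ⟨j, rfl⟩, hxL' j⟩
    · rintro ⟨_, ⟨j, rfl⟩, rfl⟩
      exact ⟨j, (hxL' j).symm⟩
  obtain ⟨G, hG0, hG⟩ := h1
  let φ : IntermediateField.adjoin ℂ (Set.range xL) →+*
      IntermediateField.adjoin ℂ (Set.range x) :=
    { toFun := fun z => ⟨F.val z, by rw [h2]; exact ⟨z, z.2, rfl⟩⟩
      map_one' := rfl
      map_mul' := fun _ _ => rfl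
      map_zero' := rfl
      map_add' := fun _ _ => rfl }
  refine ⟨G.map φ, ?_, ?_⟩
  · rwa [Ne, Polynomial.map_eq_zero]
  · have h3 : Polynomial.eval₂ (algebraMap (IntermediateField.adjoin ℂ (Set.range x)) L) f
        (G.map φ) = F.val (Polynomial.aeval (⟨f, hf⟩ : F) G) := by
      rw [Polynomial.eval₂_map, Polynomial.aeval_def]
      change _ = (F.val : F →+* L) (Polynomial.eval₂ _ _ _)
      rw [Polynomial.hom_eval₂]
      rfl
    rw [Polynomial.aeval_def, h3, hG, map_zero]

/-- a transcendence basis among the generators -/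
theorem exists_base {n : ℕ} (hn : Algebra.trdeg ℂ L = n) {q : ℕ} (φ : Fin q → L) :
    ∃ (p : ℕ) (ι : Fin p → Fin q), AlgebraicIndependent ℂ (fun i => φ (ι i)) ∧
      Algebra.trdeg ℂ (IntermediateField.adjoin ℂ (Set.range φ)) = p := by
  classical
  obtain ⟨F, hF⟩ : ∃ F, F = IntermediateField.adjoin ℂ (Set.range φ) := ⟨_, rfl⟩
  rw [← hF]
  have hφF : ∀ j, φ j ∈ F := fun j => by
    rw [hF]
    exact IntermediateField.subset_adjoin ℂ _ ⟨j, rfl⟩
  obtain ⟨n0, hn0⟩ : ∃ n0 : ℕ, Algebra.trdeg ℂ F = n0 := by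
    have h1 := trdeg_add_eq ℂ F (A := L)
    rw [hn] at h1
    have h2 : Algebra.trdeg ℂ F < Cardinal.aleph0 := by
      refine lt_of_le_of_lt ?_ (Cardinal.natCast_lt_aleph0 (n := n))
      rw [← h1]
      exact le_self_add
    obtain ⟨n0, h3⟩ := Cardinal.lt_aleph0.1 h2
    exact ⟨n0, h3⟩
  obtain ⟨p, x, hxr, hxi, hxk⟩ := pick hn0 (⊥ : IntermediateField ℂ F)
    (Set.range fun j => (⟨φ j, hφF j⟩ : F))
  choose ι hι using hxr
  have hxi' : AlgebraicIndependent ℂ x :=
    hxi.restrictScalars (R := ℂ) (algebraMap ℂ (⊥ : IntermediateField ℂ F)).injective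
  have htop : IntermediateField.adjoin ℂ (Set.range fun j => (⟨φ j, hφF j⟩ : F)) = ⊤ := by
    rw [← top_le_iff]
    intro w _
    have hw : (w : L) ∈ IntermediateField.adjoin ℂ (Set.range φ) := by
      rw [← hF]
      exact w.2
    have h1 : IntermediateField.adjoin ℂ (Set.range φ) ≤
        (IntermediateField.adjoin ℂ (Set.range fun j => (⟨φ j, hφF j⟩ : F))).map F.val := by
      rw [IntermediateField.adjoin_le_iff]
      rintro _ ⟨j, rfl⟩
      exact ⟨⟨φ j, hφF j⟩, IntermediateField.subset_adjoin ℂ _ ⟨j, rfl⟩, rfl⟩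
    obtain ⟨v, hv, hvx⟩ := h1 hw
    have : v = w := Subtype.ext hvx
    rw [← this]
    exact hv
  have hbas : IsTranscendenceBasis ℂ x := basis_of_kill₀ hxi' fun D hD => by
    have h1 := hxk D (fun f hf => by
      obtain ⟨c, rfl⟩ := IntermediateField.mem_bot.1 hf
      exact D.map_algebraMap c) hD
    have h2 : IntermediateField.adjoin ℂ (Set.range fun j => (⟨φ j, hφF j⟩ : F)) ≤ consts D := by
      rw [IntermediateField.adjoin_le_iff]
      exact h1
    rw [htop] at h2
    ext y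
    exact congrArg Subtype.val (h2 (x := y) trivial)
  refine ⟨p, ι, ?_, ?_⟩
  · have h1 := hxi'.map' (f := F.val) F.val.toRingHom.injective
    have h2 : (F.val ∘ x) = fun i => φ (ι i) := by
      funext i
      rw [Function.comp_apply, ← hι i]
      rfl
    rw [← h2]
    exact h1
  · have h3 := hbas.cardinalMk_eq_trdeg
    rw [Cardinal.mk_fin] at h3
    exact h3.symm

end

section

variable {K : Type} [Field K] [Algebra ℂ K] {N n : ℕ} {y : Fin (N + 1) → K}

/-- The function `f` is the ratio of two sections of a positive multiple of `K_X + Δ`. -/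
def IsRatio (y : Fin (N + 1) → K) (n : ℕ) (Δ : Place ℂ K → ℚ) (f : K) : Prop :=
  ∃ m : ℕ, 1 ≤ m ∧ ∃ θ θ' : (Fin n → Derivation ℂ K K) → K, Y172.IsSection y n m (m • Δ) θ ∧
    Y172.IsSection y n m (m • Δ) θ' ∧ ∃ D, θ' D ≠ 0 ∧ f = θ D / θ' D

/-- **Sections with given ratios.** -/
theorem exists_sections {Δ : Place ℂ K → ℚ} {p : ℕ} {x : Fin p → K}
    (hx : ∀ i, IsRatio y n Δ (x i)) {D : Fin n → Derivation ℂ K K} (hD : IsFrame D) :
    ∃ (M : ℕ) (Θ : Fin (p + 1) → (Fin n → Derivation ℂ K K) → K),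
      (∀ a, PairSec n {P | IsPrimeDivisor y P} (fun P => (Δ P : ℝ)) M (Θ a)) ∧ Θ 0 D ≠ 0 ∧
      ∀ i : Fin p, Θ i.succ D / Θ 0 D = x i := by
  classical
  choose m hm θ θ' hθ hθ' E hE hxE using hx
  have h1 : ∀ i, θ' i D ≠ 0 ∧ θ i D / θ' i D = x i := by
    intro i
    obtain ⟨d, hd⟩ := frame_pluri hD (E i)
    have h2 := hd (m i) _ (hθ i).1
    have h3 := hd (m i) _ (hθ' i).1
    have h4 := hE i
    rw [h3] at h4
    refine ⟨right_ne_zero_of_mul h4, ?_⟩
    rw [hxE i, h2, h3, mul_div_mul_left _ _ (left_ne_zero_of_mul h4)]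
  obtain ⟨τ, hτ⟩ : ∃ τ : Fin (p + 1) → Fin p → (Fin n → Derivation ℂ K K) → K,
      ∀ a i, τ a i = if a = i.succ then θ i else θ' i := ⟨_, fun _ _ => rfl⟩
  have hτs : ∀ a i, Y172.IsSection y n (m i) (m i • Δ) (τ a i) := by
    intro a i
    rw [hτ]
    split_ifs
    · exact hθ i
    · exact hθ' i
  have h0 : (∏ i, τ 0 i D) ≠ 0 := by
    rw [Finset.prod_ne_zero_iff]
    intro i _
    rw [hτ, if_neg (Fin.succ_ne_zero i).symm]
    exact (h1 i).1
  refine ⟨∑ i, m i, fun a G => ∏ i, τ a i G, fun a => ⟨fun A G => ?_, fun P hP hPd G hG => ?_⟩,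
    h0, fun a => ?_⟩
  · beta_reduce
    rw [Finset.prod_congr rfl fun i _ => (hτs a i).1 A G, Finset.prod_mul_distrib,
      Finset.prod_pow_eq_pow_sum]
  · have h2 := geR_prod (P := P) Finset.univ (r := fun i => -((m i : ℝ) * (Δ P : ℝ)))
      (f := fun i => τ a i G) fun i _ => by
        rcases (hτs a i).2 P hP G hG with h | h
        · exact Or.inl h
        · right
          have e1 : (m i • Δ) P = m i * Δ P := by rw [Pi.smul_apply, nsmul_eq_mul]
          rw [e1] at h
          have h3 : ((-(m i * Δ P) : ℚ) : ℝ) ≤ ((P.ord (τ a i G) : ℚ) : ℝ) := by exact_mod_cast h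
          push_cast at h3
          exact h3
    have e1 : ∑ i, -((m i : ℝ) * (Δ P : ℝ)) = -(((∑ i, m i : ℕ) : ℝ) * (Δ P : ℝ)) := by
      rw [Finset.sum_neg_distrib, ← Finset.sum_mul]
      push_cast
      rfl
    rw [e1] at h2
    exact h2
  · beta_reduce
    rw [← Finset.prod_div_distrib, Finset.prod_eq_single a]
    · rw [hτ, hτ, if_pos rfl, if_neg (Fin.succ_ne_zero a).symm]
      exact (h1 a).2
    · intro i _ hia
      rw [hτ, hτ, if_neg (fun h => hia (Fin.succ_injective _ h).symm),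
        if_neg (Fin.succ_ne_zero i).symm]
      exact div_self (h1 i).1
    · intro h
      exact absurd (Finset.mem_univ a) h

theorem iit_grow (hy : NormalModel y) (hn : Algebra.trdeg ℂ K = n) {Δ : Place ℂ K → ℚ}
    (hΔ : Effective y Δ) (hLC : LogCanonical y n Δ) {q r : ℕ} {φ : Fin q → K} {z : Fin r → K}
    (hφ : ∀ i, IsRatio y n Δ (φ i)) (hz : ∀ j, z j ≠ 0) {s : ℕ}
    (hs : Algebra.trdeg (IntermediateField.adjoin ℂ (Set.range φ)) K = s)
    (halg : ∀ f : K, IsAlgebraic (IntermediateField.adjoin ℂ (Set.range φ ∪ Set.range z)) f)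
    (hbd : ∀ P, IsPrimeDivisor y P →
      (∀ f ∈ IntermediateField.adjoin ℂ (Set.range φ), f ≠ 0 → P.ord f = 0) →
      (∃ j, P.ord (z j) ≠ 0) → 1 ≤ Δ P ∨ (0 < Δ P ∧
        LogVan s ((IntermediateField.adjoin ℂ (Set.range φ) : IntermediateField ℂ K) : Set K) z P))
    (huni : ∀ P, IsPrimeDivisor y P → Δ P = 0 →
      (∀ f ∈ IntermediateField.adjoin ℂ (Set.range φ), f ≠ 0 → P.ord f = 0) →
      (∀ j, P.ord (z j) = 0) →
      (∃ v : Fin (n - 1) → K, (∀ i, (∃ b, v i = φ b) ∨ ∃ a : Fin r → ℤ, v i = mono z a) ∧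
        ∀ G : MvPolynomial (Fin (n - 1)) ℂ, G ≠ 0 →
          MvPolynomial.aeval v G ≠ 0 ∧ P.ord (MvPolynomial.aeval v G) = 0) →
      (∃ f ∈ IntermediateField.adjoin ℂ (Set.range φ ∪ Set.range z), P.ord f = 1) →
      ∀ P' : Place ℂ K, (∀ f ∈ IntermediateField.adjoin ℂ (Set.range φ ∪ Set.range z),
        0 < P.ord f ↔ 0 < P'.ord f) →
      (∃ f ∈ IntermediateField.adjoin ℂ (Set.range φ ∪ Set.range z), P'.ord f = 1) ∧
        NonnegDisc y n Δ P') :
    ∃ κ : ℕ, κ ≤ n ∧ Grow y n Δ κ := by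
  classical
  obtain ⟨L, hL⟩ : ∃ L, L = IntermediateField.adjoin ℂ (Set.range φ ∪ Set.range z) := ⟨_, rfl⟩
  obtain ⟨F0, hF0⟩ : ∃ F0, F0 = IntermediateField.adjoin ℂ (Set.range φ) := ⟨_, rfl⟩
  rw [← hL] at halg huni
  rw [← hF0] at hbd huni hs
  have hess := hy.ess
  have hessL : Algebra.EssFiniteType ℂ L := by
    rw [hL]
    exact IntermediateField.essFiniteType_iff.2
      (IntermediateField.fg_adjoin_of_finite ((Set.finite_range φ).union (Set.finite_range z)))
  have hfd : FiniteDimensional L K := fin_of_alg hess halg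
  have halg' : Algebra.IsAlgebraic L K := ⟨halg⟩
  have hnL : Algebra.trdeg ℂ L = n := by
    have h3 := trdeg_add_eq ℂ L (A := K)
    rw [hn, trdeg_eq_zero (R := L) (A := K), add_zero] at h3
    exact h3
  have hzL : ∀ j, z j ∈ L := fun j => by
    rw [hL]
    exact IntermediateField.subset_adjoin ℂ _ (Or.inr ⟨j, rfl⟩)
  have hφL : ∀ j, φ j ∈ L := fun j => by
    rw [hL]
    exact IntermediateField.subset_adjoin ℂ _ (Or.inl ⟨j, rfl⟩)
  obtain ⟨φL, hφL'⟩ : ∃ φL : Fin q → L, ∀ j, (φL j : K) = φ j := ⟨fun j => ⟨_, hφL j⟩, fun _ => rfl⟩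
  obtain ⟨zL, hzL'⟩ : ∃ zL : Fin r → L, ∀ j, (zL j : K) = z j := ⟨fun j => ⟨_, hzL j⟩, fun _ => rfl⟩
  have hmono : ∀ a : Fin r → ℤ, ((mono zL a : L) : K) = mono z a := by
    intro a
    unfold mono
    push_cast
    exact Finset.prod_congr rfl fun i _ => by rw [← hzL' i]; rfl
  have haev : ∀ (v : Fin (n - 1) → L) (G : MvPolynomial (Fin (n - 1)) ℂ),
      ((MvPolynomial.aeval v G : L) : K) = MvPolynomial.aeval (fun i => (v i : K)) G := by
    intro v G
    have h1 := MvPolynomial.aeval_algebraMap_apply (A := L) K v G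
    rw [IntermediateField.algebraMap_apply] at h1
    rw [← h1]
    rfl
  -- the base
  obtain ⟨F, hF⟩ : ∃ F, F = IntermediateField.adjoin ℂ (Set.range φL) := ⟨_, rfl⟩
  have hFmap : F.map L.val = F0 := by
    rw [hF, hF0, IntermediateField.adjoin_map]
    congr 1
    ext w
    constructor
    · rintro ⟨_, ⟨j, rfl⟩, rfl⟩
      exact ⟨j, (hφL' j).symm⟩
    · rintro ⟨j, rfl⟩
      exact ⟨_, ⟨j, rfl⟩, hφL' j⟩
  have hFF0 : ∀ f ∈ F, (f : K) ∈ F0 := by
    intro f hf
    rw [← hFmap]
    exact ⟨f, hf, rfl⟩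
  have hF0F : ∀ f ∈ F0, ∃ g ∈ F, (g : K) = f := by
    intro f hf
    rw [← hFmap] at hf
    exact hf
  obtain ⟨p, ι, hxi, hp⟩ := exists_base hnL φL
  rw [← hF] at hp
  have hxF : ∀ i, φL (ι i) ∈ F := fun i => by
    rw [hF]
    exact IntermediateField.subset_adjoin ℂ _ ⟨_, rfl⟩
  have hFx : F ≤ acl ℂ (Set.range fun i => φL (ι i)) := fun f hf =>
    mem_acl.2 (alg_of_trdeg hp hxi hxF f hf)
  have hpK : Algebra.trdeg ℂ F0 = p := by
    rw [← hFmap, ← hp]
    exact ((IntermediateField.equivMap F L.val).trdeg_eq).symm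
  have hnps : n = p + s := by
    have h3 := trdeg_add_eq ℂ F0 (A := K)
    rw [hpK, hs, hn] at h3
    exact_mod_cast h3.symm
  have hFset : algebraMap L K '' (F : Set L) = (F0 : Set K) := by
    ext f
    constructor
    · rintro ⟨g, hg, rfl⟩
      exact hFF0 g hg
    · intro hf
      obtain ⟨g, hg, rfl⟩ := hF0F f hf
      exact ⟨g, hg, rfl⟩
  have hzset : (fun j => algebraMap L K (zL j)) = z := funext hzL'
  have hxiK : AlgebraicIndependent ℂ fun i => φ (ι i) := by
    have h1 := hxi.map' (f := L.val) L.val.toRingHom.injective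
    have h2 : (L.val ∘ fun i => φL (ι i)) = fun i => φ (ι i) := funext fun i => hφL' _
    rw [← h2]
    exact h1
  have halgK := alg_of_trdeg hpK hxiK (fun i => by
    rw [hF0]
    exact IntermediateField.subset_adjoin ℂ _ ⟨_, rfl⟩)
  have htrK : ∀ P : Place ℂ K, (∀ f ∈ F, f ≠ 0 → P.ord (algebraMap L K f) = 0) →
      ∀ f ∈ F0, f ≠ 0 → P.ord f = 0 := by
    intro P hP f hf hf0
    obtain ⟨g, hg, rfl⟩ := hF0F f hf
    exact hP g hg fun h => hf0 (by rw [h]; rfl)
  have htrL : ∀ P : Place ℂ K, (∀ f ∈ F0, f ≠ 0 → P.ord f = 0) →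
      ∀ f ∈ F, f ≠ 0 → P.ord (algebraMap L K f) = 0 := by
    intro P hP f hf hf0
    exact hP _ (hFF0 f hf) fun h => hf0 (Subtype.ext h)
  have hgen : IntermediateField.adjoin ℂ ((acl ℂ (F : Set L) : Set L) ∪ Set.range zL) = ⊤ := by
    rw [← top_le_iff]
    intro w _
    have hw : (w : K) ∈ IntermediateField.adjoin ℂ (Set.range φ ∪ Set.range z) := by
      rw [← hL]
      exact w.2
    have h1 : IntermediateField.adjoin ℂ (Set.range φ ∪ Set.range z) ≤
        (IntermediateField.adjoin ℂ ((acl ℂ (F : Set L) : Set L) ∪ Set.range zL)).map L.val := by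
      rw [IntermediateField.adjoin_le_iff]
      rintro _ (⟨j, rfl⟩ | ⟨j, rfl⟩)
      · refine ⟨φL j, IntermediateField.subset_adjoin ℂ _ (Or.inl (subset_acl _ ?_)), hφL' j⟩
        rw [hF]
        exact IntermediateField.subset_adjoin ℂ _ ⟨_, rfl⟩
      · exact ⟨zL j, IntermediateField.subset_adjoin ℂ _ (Or.inr ⟨j, rfl⟩), hzL' j⟩
    obtain ⟨v, hv, hvx⟩ := h1 hw
    have : v = w := Subtype.ext hvx
    rw [← this]
    exact hv
  obtain ⟨κ, -, hκ, hG⟩ := rel_grow (L := L) hy hn hnL hΔ hLC hp hxi hxF hFx hnps (z := zL)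
    (fun j h => hz j (by rw [← hzL', h]; rfl)) hgen
    (fun P hP hPF hPz => by
      rw [hFset, hzset]
      refine hbd P hP (htrK P hPF) ?_
      obtain ⟨j, hj⟩ := hPz
      refine ⟨j, ?_⟩
      rw [← hzL']
      exact hj)
    (by
      rintro Q hQF hQz ⟨v, hv, hvQ⟩ ⟨P, hP, hPQ, hΔP⟩ P' e hP'
      have hPo : ∀ f : L, P.ord (f : K) = Q.ord f := by
        intro f
        have := hPQ.2 f
        rw [Nat.cast_one, one_mul] at this
        exact this
      have hP'o : ∀ f : L, P'.ord (f : K) = e * Q.ord f := fun f => hP'.2 f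
      have he : 1 ≤ e := hP'.1
      obtain ⟨f1, -, hf1⟩ := Q.surj
      obtain ⟨⟨f, hf, hfo⟩, hdis⟩ := huni P hP hΔP (htrK P fun f hf hf0 => by
          have := hPo f
          rw [hQF f hf hf0] at this
          exact this)
        (fun j => by
          rw [← hzL', hPo, hQz])
        ⟨fun i => (v i : K), fun i => by
            rcases hv i with ⟨b, hb⟩ | ⟨a, ha⟩
            · exact Or.inl ⟨ι b, by beta_reduce; rw [hb, hφL']⟩
            · exact Or.inr ⟨a, by beta_reduce; rw [ha, hmono]⟩,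
          fun G hG => by
            have h1 := hvQ G hG
            refine ⟨fun h0 => h1.1 (Subtype.ext ?_), ?_⟩
            · rw [haev, h0]
              rfl
            · rw [← haev, hPo]
              exact h1.2⟩
        ⟨f1, f1.2, by rw [hPo, hf1]⟩ P' (fun f hf => by
          have h1 := hPo ⟨f, hf⟩
          have h2 := hP'o ⟨f, hf⟩
          change P.ord f = _ at h1
          change P'.ord f = _ at h2
          rw [h1, h2]
          constructor
          · intro h
            positivity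
          · intro h
            by_contra hcon
            push Not at hcon
            have : (e : ℤ) * Q.ord ⟨f, hf⟩ ≤ 0 :=
              mul_nonpos_of_nonneg_of_nonpos (by positivity) hcon
            omega)
      refine ⟨?_, hdis⟩
      have h2 := hP'o ⟨f, hf⟩
      change P'.ord f = _ at h2
      rw [hfo] at h2
      have h3 : (e : ℤ) ∣ 1 := ⟨_, h2⟩
      have h4 : e ∣ 1 := by exact_mod_cast h3
      exact Nat.dvd_one.1 h4)
    (by
      intro lam m η D ρ hD hm hη hη0 hρ hηρ hbound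
      obtain ⟨M, Θ, hΘ, hΘ0, hΘx⟩ := exists_sections (fun i => hφ (ι i)) hD
      refine iit_comb hn (fun P hP => ?_) (fun P hP => hP.divisorial hy hn)
        (fun f hf => finite_ord hy hf) hΘ hD hΘ0 hm hη hη0 ?_ (fun P hP hPx b G hG => ?_)
      · exact_mod_cast hΔ.1 P hP
      · have h1 : AlgebraicIndependent ℂ fun i => (⟨φL (ι i), hxF i⟩ : F) :=
          AlgebraicIndependent.of_comp F.val hxi
        have h2 := h1.sumElim_comp hρ
        have h3 := h2.comp (fun i : Fin p ⊕ Fin lam => i.swap) Sum.swap_leftInverse.injective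
        have h4 := h3.map' (f := L.val) L.val.toRingHom.injective
        convert h4 using 1
        funext i
        rcases i with i | i
        · rw [Sum.elim_inl, hΘx]
          exact (hφL' _).symm
        · rw [Sum.elim_inr, hηρ]
          rfl
      · refine hbound P hP (htrL P ?_) b G hG
        have h1 : (fun i : Fin p => Θ i.succ D / Θ 0 D) = fun i => φ (ι i) := funext hΘx
        rw [h1] at hPx
        exact triv_alg hPx halgK)
  exact ⟨κ, hκ, hG⟩

end

end Pool.Agent.D0H90.FC
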