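import Pool.Agent.D0H90.FC.Upp
import Pool.Agent.D0H90.WA.Low
import Pool.Agent.D0H90.KT.Tr

/-!
The sections on a finite cover which come from the sections on the base.
-/

set_option autoImplicit false
set_option linter.unusedSectionVars false
set_option linter.overlappingInstances false

open FF Pool.Agent.W602.GT Pool.Agent.W603.LV Pool.Agent.W619.PQ Pool.Agent.TH122.AB
open Pool.Agent.Y172 Pool.Agent.Y191 Pool.Agent.D0H90.WA Pool.Agent.D0H90.KT

namespace Pool.Agent.D0H90.FC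

section

variable {L K : Type} [Field L] [Field K] [Algebra ℂ L] [Algebra ℂ K]
  [Algebra L K] [IsScalarTower ℂ L K] [FiniteDimensional L K] {N n : ℕ} {y : Fin (N + 1) → K}

/-- the places of the subfield below the prime divisors of `X` -/
def XL (L : Type) {K : Type} [Field L] [Field K] [Algebra ℂ L] [Algebra ℂ K] [Algebra L K]
    {N : ℕ} (y : Fin (N + 1) → K) : Set (Place ℂ L) :=
  {Q | ∃ (P : Place ℂ K) (e : ℕ), IsPrimeDivisor y P ∧ Over P Q e}

/-- the values of the coefficients below -/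
def vals {L K : Type} [Field L] [Field K] [Algebra ℂ L] [Algebra ℂ K] [Algebra L K]
    {N : ℕ} (y : Fin (N + 1) → K) (Δ : Place ℂ K → ℚ) (Q : Place ℂ L) : Set ℝ :=
  {v | ∃ (P : Place ℂ K) (e : ℕ), IsPrimeDivisor y P ∧ Over P Q e ∧ v = 1 - (1 - (Δ P : ℝ)) / e}

/-- the coefficient on the base -/
noncomputable def dL {L K : Type} [Field L] [Field K] [Algebra ℂ L] [Algebra ℂ K] [Algebra L K]
    {N : ℕ} (y : Fin (N + 1) → K) (Δ : Place ℂ K → ℚ) (Q : Place ℂ L) : ℝ := sInf (vals y Δ Q)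

theorem vals_finite (Δ : Place ℂ K → ℚ) (Q : Place ℂ L) : (vals y Δ Q).Finite := by
  classical
  have hcL : CharZero L := charZero_of_injective_algebraMap (algebraMap ℂ L).injective
  refine ((finite_over (K' := K) Q).image fun P => 1 - (1 - (Δ P : ℝ)) / (ram L P : ℝ)).subset ?_
  rintro v ⟨P, e, -, hP, rfl⟩
  refine ⟨P, ⟨e, hP⟩, ?_⟩
  beta_reduce
  rw [(bel_eq L hP).2]

theorem dL_le {Δ : Place ℂ K → ℚ} {Q : Place ℂ L} {P : Place ℂ K} {e : ℕ}
    (hP : IsPrimeDivisor y P) (h : Over P Q e) : dL y Δ Q ≤ 1 - (1 - (Δ P : ℝ)) / e :=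
  csInf_le (vals_finite Δ Q).bddBelow ⟨P, e, hP, h, rfl⟩

theorem dL_mem {Δ : Place ℂ K → ℚ} {Q : Place ℂ L} (hQ : Q ∈ XL L y) :
    ∃ (P : Place ℂ K) (e : ℕ), IsPrimeDivisor y P ∧ Over P Q e ∧
      dL y Δ Q = 1 - (1 - (Δ P : ℝ)) / e := by
  obtain ⟨P, e, hP, h⟩ := hQ
  have h1 : (vals y Δ Q).Nonempty := ⟨_, P, e, hP, h, rfl⟩
  exact h1.csInf_mem (vals_finite Δ Q)

theorem XL_fin (hy : NormalModel y) {f : L} (hf : f ≠ 0) :
    {Q : Place ℂ L | Q ∈ XL L y ∧ Q.ord f ≠ 0}.Finite := by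
  classical
  have hf' : algebraMap L K f ≠ 0 := by rwa [Ne, map_eq_zero]
  refine ((finite_ord hy hf').image (bel L)).subset ?_
  rintro Q ⟨⟨P, e, hP, h⟩, h0⟩
  refine ⟨P, ⟨hP, ?_⟩, (bel_eq L h).1⟩
  rw [h.2]
  have : (e : ℤ) ≠ 0 := by
    have := h.1
    positivity
  exact mul_ne_zero this h0

/-- **Pull-back of sections.** -/
theorem kod_up [Algebra.EssFiniteType ℂ L] (hy : NormalModel y) (hn : Algebra.trdeg ℂ K = n)
    (hnL : Algebra.trdeg ℂ L = n) {Δ : Place ℂ K → ℚ} {d m : ℕ} (hm : 0 < m)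
    {θ : Fin (d + 1) → (Fin n → Derivation ℂ L L) → L} (hθ : ∀ b, IsPluri m (θ b))
    (hθX : ∀ b, ∀ Q ∈ XL L y, ∀ G : Fin n → Derivation ℂ L L, (∀ i, DerReg Q (G i)) →
      θ b G = 0 ∨ -(m * dL y Δ Q) ≤ (Q.ord (θ b G) : ℝ))
    {D : Fin n → Derivation ℂ L L} (h0 : θ 0 D ≠ 0)
    (hind : AlgebraicIndependent ℂ (fun i : Fin d => θ i.succ D / θ 0 D)) :
    KodairaGe n {P | IsPrimeDivisor y P} (fun P => (Δ P : ℝ)) d := by
  classical
  obtain ⟨yc, E, hyc, hE⟩ := exists_crd hnL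
  choose D' hD' using fun i => exists_lift (L := K) hnL (D i)
  obtain ⟨Θ, hΘ⟩ : ∃ Θ : Fin (d + 1) → (Fin n → Derivation ℂ K K) → K, ∀ b G, Θ b G =
      (Matrix.of fun i j => G i (algebraMap L K (yc j))).det ^ m * algebraMap L K (θ b E) :=
    ⟨_, fun _ _ => rfl⟩
  have hval : ∀ b, Θ b D' = algebraMap L K (θ b D) := by
    intro b
    rw [hΘ, pluri_coord hyc hE (hθ b) D, map_mul, map_pow, RingHom.map_det]
    congr 3
    ext i j
    rw [Matrix.of_apply, RingHom.mapMatrix_apply, Matrix.map_apply, Matrix.of_apply, hD']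
  refine ⟨m, hm, Θ, fun b => ⟨?_, ?_⟩, D', ?_, ?_⟩
  · intro A G
    have e1 : (Matrix.of fun a b => (∑ j, A a j • G j) (algebraMap L K (yc b))) =
        A * Matrix.of fun a b => G a (algebraMap L K (yc b)) := by
      ext a b
      rw [Matrix.of_apply, Matrix.mul_apply, sum_smul_apply]
      rfl
    rw [hΘ, hΘ, e1, Matrix.det_mul, mul_pow, mul_assoc]
  · intro P hP hPd G hG
    have hPr := over_bel L P
    obtain ⟨Q, hQ⟩ : ∃ Q, Q = bel L P := ⟨_, rfl⟩
    obtain ⟨e, he⟩ : ∃ e, e = ram L P := ⟨_, rfl⟩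
    rw [← hQ, ← he] at hPr
    have hQd : Divisorial n Q := divisorial_down hPr hPd
    have hQX : Q ∈ XL L y := ⟨P, e, hP, hPr⟩
    obtain ⟨yQ, EQ, i0, hl⟩ := exists_loc hnL hQd
    have h1 : Θ b G = (Matrix.of fun i j => G i (algebraMap L K (yQ j))).det ^ m *
        algebraMap L K (θ b EQ) := by
      rw [hΘ]
      exact Pool.Agent.W73.PG.PULL.form_eq yc yQ hyc hl.bas E EQ hE hl.dual _ (hθ b) G
    beta_reduce
    by_cases hz : Θ b G = 0
    · exact Or.inl hz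
    right
    have h2 : algebraMap L K (θ b EQ) ≠ 0 := by
      intro h
      rw [h1, h, mul_zero] at hz
      exact hz rfl
    have h3 : θ b EQ ≠ 0 := by rwa [Ne, map_eq_zero] at h2
    have h4 := (hθX b Q hQX EQ hl.pres).resolve_left h3
    have h5 := pull_reg hPr hl hG (m := m) (ω := θ b) (ge_ord Q (θ b EQ))
    rw [← h1] at h5
    have h6 := h5.resolve_left hz
    have h7 := dL_le (Δ := Δ) hP hPr
    have he1 : (1 : ℝ) ≤ e := by exact_mod_cast hPr.1
    have hm0 : (0 : ℝ) ≤ m := Nat.cast_nonneg _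
    have h8 : ((m * (e - 1) + e * Q.ord (θ b EQ) : ℤ) : ℝ) ≤ (P.ord (Θ b G) : ℝ) := by
      exact_mod_cast h6
    push_cast at h8
    refine le_trans ?_ h8
    have h9 : (e : ℝ) * (1 - (1 - (Δ P : ℝ)) / e) = e - (1 - (Δ P : ℝ)) := by
      field_simp
    have h10 : (e : ℝ) * (-(m * dL y Δ Q)) ≤ e * (Q.ord (θ b EQ) : ℝ) :=
      mul_le_mul_of_nonneg_left h4 (by linarith)
    have h11 : (e : ℝ) * (m * dL y Δ Q) ≤ m * (e - (1 - (Δ P : ℝ))) := by
      rw [← h9]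
      calc (e : ℝ) * (m * dL y Δ Q) = (m * e) * dL y Δ Q := by ring
        _ ≤ (m * e) * (1 - (1 - (Δ P : ℝ)) / e) :=
          mul_le_mul_of_nonneg_left h7 (by positivity)
        _ = m * (e * (1 - (1 - (Δ P : ℝ)) / e)) := by ring
    nlinarith
  · rw [hval, Ne, map_eq_zero]
    exact h0
  · have h1 : (fun i : Fin d => Θ i.succ D' / Θ 0 D') =
        (IsScalarTower.toAlgHom ℂ L K) ∘ fun i : Fin d => θ i.succ D / θ 0 D := by
      funext i
      rw [hval, hval, Function.comp_apply, IsScalarTower.toAlgHom_apply, map_div₀]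
    rw [h1]
    exact hind.map' (algebraMap L K).injective

end

end Pool.Agent.D0H90.FC
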