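import Pool.Agent.D0H90.FC.Low

/-!
Weak abundance for pairs which are generically finite over a closed subvariety of a torus.
-/

set_option autoImplicit false
set_option linter.unusedSectionVars false
set_option linter.overlappingInstances false

open FF Pool.Agent.W602.GT Pool.Agent.W603.LV Pool.Agent.W619.PQ Pool.Agent.TH122.AB
open Pool.Agent.TH585.SV Pool.Agent.Y172 Pool.Agent.Y191 Pool.Agent.D0H90.WA Pool.Agent.D0H90.KT

namespace Pool.Agent.D0H90.FC

section

variable {L K : Type} [Field L] [Field K] [Algebra ℂ L] [Algebra ℂ K]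
  [Algebra L K] [IsScalarTower ℂ L K] [FiniteDimensional L K] {N n : ℕ} {y : Fin (N + 1) → K}

/-- **Growth of sections** on a finite cover of a closed subvariety of a torus. -/
theorem cover_grow [Algebra.EssFiniteType ℂ L] (hy : NormalModel y) (hn : Algebra.trdeg ℂ K = n)
    (hnL : Algebra.trdeg ℂ L = n) {Δ : Place ℂ K → ℚ} (hΔ : Effective y Δ)
    (hLC : LogCanonical y n Δ) {r : ℕ} {z : Fin r → L} (hz : ∀ j, z j ≠ 0)
    (htop : IntermediateField.adjoin ℂ (Set.range z) = ⊤)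
    (hbd : ∀ P, IsPrimeDivisor y P → (∃ j, P.ord (algebraMap L K (z j)) ≠ 0) → 1 ≤ Δ P)
    (huni : ∀ Q : Place ℂ L, (∀ j, Q.ord (z j) = 0) → (∃ a : Fin (n - 1) → Fin r → ℤ,
      ∀ G : MvPolynomial (Fin (n - 1)) ℂ, G ≠ 0 →
        MvPolynomial.aeval (fun i => mono z (a i)) G ≠ 0 ∧
        Q.ord (MvPolynomial.aeval (fun i => mono z (a i)) G) = 0) →
      (∃ P, IsPrimeDivisor y P ∧ Over P Q 1 ∧ Δ P = 0) →
      ∀ (P : Place ℂ K) (e : ℕ), Over P Q e → e = 1 ∧ NonnegDisc y n Δ P) :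
    ∃ κ : ℕ, κ ≤ n ∧ Grow y n Δ κ := by
  classical
  have hess := hy.ess
  have hgen : IntermediateField.adjoin ℂ
      ((acl ℂ ((⊥ : IntermediateField ℂ L) : Set L) : Set L) ∪ Set.range z) = ⊤ := by
    rw [← top_le_iff, ← htop]
    exact IntermediateField.adjoin.mono ℂ _ _ Set.subset_union_right
  obtain ⟨e, l, M, J, D, u, H, gs⟩ := exists_gs (F := ⊥) hnL hz hgen
  have hbotk : ∀ G : Derivation ℂ L L, Kills G (⊥ : IntermediateField ℂ L) := by
    intro G x hx
    obtain ⟨c, rfl⟩ := IntermediateField.mem_bot.1 hx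
    exact G.map_algebraMap c
  -- the polynomials with positive coefficients
  obtain ⟨B, hB⟩ : ∃ B : MvPolynomial (Fin l) M → Prop, ∀ g, B g ↔ (Irreducible g ∧
      ∀ Q ∈ XL L y, Adic Q u g → 0 < dL y Δ Q) := ⟨_, fun _ => Iff.rfl⟩
  obtain ⟨M1, l', ρ, x, u', fb⟩ := exists_fb hnL gs B
  obtain ⟨μ, c, hc, hbas⟩ := full_basis hnL gs fb
  -- the dimensions
  have hFe : Algebra.trdeg (⊥ : IntermediateField ℂ L) L = e := by
    have h3 := gs.bas.cardinalMk_eq_trdeg
    rw [Cardinal.mk_fin] at h3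
    exact h3.symm
  have hF0 : Algebra.trdeg ℂ (⊥ : IntermediateField ℂ L) = 0 := by
    have : Algebra.IsAlgebraic ℂ (⊥ : IntermediateField ℂ L) := Algebra.IsAlgebraic.of_finite ℂ _
    exact trdeg_eq_zero
  have hne : n = e := by
    have h3 := trdeg_add_eq ℂ (⊥ : IntermediateField ℂ L) (A := L)
    rw [hF0, hFe, hnL, zero_add] at h3
    exact_mod_cast h3.symm
  subst hne
  have hel : n = l' + (ρ + μ) := by
    have h3 := hbas.cardinalMk_eq_trdeg
    rw [hFe, Cardinal.mk_sum, Cardinal.mk_sum, Cardinal.mk_fin, Cardinal.mk_fin, Cardinal.mk_fin,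
      Cardinal.lift_natCast, Cardinal.lift_natCast, Cardinal.lift_natCast, ← Nat.cast_add,
      Cardinal.lift_natCast, ← Nat.cast_add] at h3
    exact_mod_cast h3.symm
  have hΔ0 : ∀ P, IsPrimeDivisor y P → (0 : ℝ) ≤ Δ P := fun P hP => by exact_mod_cast hΔ.1 P hP
  -- the upper bound
  obtain ⟨E, hE, hEM, hEu⟩ := exists_adapted hnL gs.closed gs.ind gs.top
  choose E' hE' using fun i => exists_lift (L := K) hnL (E i)
  have hfr' : IsFrame E' := fun G => frame_up hnL hE hE' G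
  have hup : ∀ A, Effective y A → ∃ C : ℕ, ∀ m : ℕ, 1 ≤ m → ∀ (r : ℕ) (f : Fin r → K),
      LinearIndependent ℂ f → (∀ i, ∃ ω, Y172.IsSection y n m (m • Δ + A) ω ∧ ω E' = f i) →
      r ≤ C * m ^ (ρ + μ) := by
    intro A hA
    refine upper_fin hy hn hnL hΔ hLC gs.ind gs.top fb (fun g hg hBg => ?_) hE hEM hEu (by omega)
      hE' hA
    rw [hB] at hBg
    push Not at hBg
    obtain ⟨Q, hQ, hQg, hQδ⟩ := hBg hg
    obtain ⟨P, e, hP, hPQ, hd⟩ := dL_mem (Δ := Δ) hQ
    have he1 : (1 : ℝ) ≤ e := by exact_mod_cast hPQ.1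
    rw [hd] at hQδ
    have h1 : (1 : ℝ) ≤ (1 - (Δ P : ℝ)) / e := by linarith
    rw [le_div_iff₀ (by linarith), one_mul] at h1
    have h2 := hΔ0 P hP
    have he : e = 1 := by
      have h3 : (e : ℝ) ≤ 1 := by linarith
      have h4 : e ≤ 1 := by exact_mod_cast h3
      have := hPQ.1
      omega
    subst he
    have hΔP : Δ P = 0 := by
      have h3 : (Δ P : ℝ) ≤ 0 := by
        push_cast at h1
        linarith
      exact le_antisymm (by exact_mod_cast h3) (hΔ.1 P hP)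
    obtain ⟨a, ha⟩ := adic_mono gs hnL htop hg hQg
    refine ⟨Q, ⟨_, ha⟩, hQg, huni Q (fun j => ?_) ⟨a, ha⟩ ⟨P, hP, hPQ, hΔP⟩⟩
    by_contra hcon
    have h3 := hbd P hP ⟨j, by
      rw [hPQ.2]
      simpa using hcon⟩
    rw [hΔP] at h3
    norm_num at h3
  -- the lower bound
  obtain ⟨m, hm, θ, hθ1, hθ2, hθ3, hθ4⟩ := lower2 gs fb (X := XL L y) (δ := dL y Δ)
    (by
      intro Q hQ
      obtain ⟨P, e, hP, hPQ, hd⟩ := dL_mem (Δ := Δ) hQ
      have he1 : (1 : ℝ) ≤ e := by exact_mod_cast hPQ.1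
      have h2 := hΔ0 P hP
      rw [hd]
      have h3 : (1 - (Δ P : ℝ)) / e ≤ 1 := by
        rw [div_le_one (by linarith)]
        linarith
      linarith)
    (by
      rintro Q hQ ⟨-, j, hj⟩
      left
      obtain ⟨P, e, hP, hPQ, hd⟩ := dL_mem (Δ := Δ) hQ
      have he1 : (1 : ℝ) ≤ e := by exact_mod_cast hPQ.1
      have h2 : (1 : ℝ) ≤ Δ P := by
        have h3 := hbd P hP ⟨j, by
          rw [hPQ.2]
          have : (e : ℤ) ≠ 0 := by
            have := hPQ.1
            positivity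
          exact mul_ne_zero this hj⟩
        exact_mod_cast h3
      rw [hd]
      have h3 : (1 - (Δ P : ℝ)) / e ≤ 0 := div_nonpos_of_nonpos_of_nonneg (by linarith) (by linarith)
      linarith)
    (by
      intro g hg
      rw [hB] at hg
      exact hg)
    (fun f hf => XL_fin hy hf) hc (by
      have h3 := hbas.1.comp (Sum.inr : Fin ρ ⊕ Fin μ → Fin l' ⊕ (Fin ρ ⊕ Fin μ))
        Sum.inr_injective
      exact h3)
  refine ⟨ρ + μ, by omega, ⟨E', hfr', hup⟩, kod_up hy hn hnL hm hθ1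
    (fun b Q hQ G hG => hθ2 b Q hQ G (fun i => hbotk (G i)) hG) hθ3
    (hθ4.restrictScalars (R := ℂ) (algebraMap ℂ (⊥ : IntermediateField ℂ L)).injective)⟩

end

end Pool.Agent.D0H90.FC
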