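import Pool.Agent.D0H90.FC.Main

/-!
Places with the same restriction to a subfield, in terms of the signs of the orders.
-/

set_option autoImplicit false
set_option linter.unusedSectionVars false
set_option linter.overlappingInstances false

open FF Pool.Agent.W602.GT Pool.Agent.W603.LV Pool.Agent.W619.PQ Pool.Agent.TH122.AB
open Pool.Agent.Y172

namespace Pool.Agent.D0H90.FC

section

variable {K : Type} [Field K] [Algebra ℂ K]

theorem fin_of_alg (hess : Algebra.EssFiniteType ℂ K) {L : IntermediateField ℂ K}
    (h : ∀ f : K, IsAlgebraic L f) : FiniteDimensional L K := by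
  have h1 : Algebra.EssFiniteType L K := Algebra.EssFiniteType.of_comp ℂ L K
  have halg : Algebra.IsAlgebraic L K := ⟨h⟩
  obtain ⟨s, hs⟩ := IntermediateField.fg_top L K
  have h2 : FiniteDimensional L (IntermediateField.adjoin L (s : Set K)) :=
    IntermediateField.finiteDimensional_adjoin fun x _ => (halg.isAlgebraic x).isIntegral
  rw [hs] at h2
  exact h2.equiv IntermediateField.topEquiv.toLinearEquiv

end

end Pool.Agent.D0H90.FC
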