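import Pool.Agent.D0H90.FC.Comb

/-!
From the forms along the fibres of a subfield to absolute forms, which are regular, up to the
boundary, along the divisors on which the subfield is constant.
-/

set_option autoImplicit false
set_option linter.unusedSectionVars false
set_option linter.overlappingInstances false

open FF Pool.Agent.W602.GT Pool.Agent.W603.LV Pool.Agent.W619.PQ Pool.Agent.TH122.AB
open Pool.Agent.TH585.SV Pool.Agent.TH766.MC Pool.Agent.Y172 Pool.Agent.Y191
open Pool.Agent.D0H90.WA Pool.Agent.D0H90.KT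

namespace Pool.Agent.D0H90.FC

section

variable {L : Type} [Field L] [Algebra ℂ L]

/-- **Absolute forms from forms along the fibres.** -/
theorem abs_form {p s : ℕ} {F : IntermediateField ℂ L} (hL : Algebra.trdeg ℂ L = (p + s : ℕ))
    (htr : Algebra.trdeg ℂ F = p) {lam m : ℕ} (hm : 0 < m)
    {θ : Fin (lam + 1) → (Fin s → Derivation ℂ L L) → L} (hθ : ∀ b, IsPluri m (θ b))
    {X : Set (Place ℂ L)} {δ : Place ℂ L → ℝ}
    (hreg : ∀ b, ∀ Q ∈ X, ∀ G : Fin s → Derivation ℂ L L, (∀ i, Kills (G i) F) →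
      (∀ i, DerReg Q (G i)) → θ b G = 0 ∨ -(m * δ Q) ≤ (Q.ord (θ b G) : ℝ))
    {D : Fin s → Derivation ℂ L L} (hDF : ∀ i, Kills (D i) F) (h0 : θ 0 D ≠ 0) :
    ∃ η : Fin (lam + 1) → (Fin (p + s) → Derivation ℂ L L) → L, (∀ b, IsPluri m (η b)) ∧
      (∃ D0, η 0 D0 ≠ 0) ∧
      (∀ (b : Fin lam) (D1 : Fin (p + s) → Derivation ℂ L L), η 0 D1 ≠ 0 →
        η b.succ D1 / η 0 D1 = θ b.succ D / θ 0 D) ∧
      ∀ b, ∀ Q ∈ X, (∀ f ∈ F, f ≠ 0 → Q.ord f = 0) → ∀ G : Fin (p + s) → Derivation ℂ L L,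
        (∀ i, DerReg Q (G i)) → GeR Q (-(m * δ Q)) (η b G) := by
  classical
  obtain ⟨g, hg⟩ := exists_isTranscendenceBasis ℂ F
  have h1 := hg.cardinalMk_eq_trdeg
  rw [htr] at h1
  obtain ⟨φ⟩ : Nonempty (Fin p ≃ g) := by
    rw [← Cardinal.eq, Cardinal.mk_fin]
    exact h1.symm
  obtain ⟨x, hx⟩ : ∃ x : Fin p → L, x = fun i => ((φ i : F) : L) := ⟨_, rfl⟩
  have hxi : AlgebraicIndependent ℂ x := by
    have h2 := (hg.comp_equiv φ).1.map' (f := F.val) F.val.toRingHom.injective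
    rw [hx]
    exact h2
  have hxF : ∀ j, x j ∈ F := fun j => by
    rw [hx]
    exact (φ j : F).2
  obtain ⟨u, Dt, Du, Fr, hHz⟩ := exists_frameF hL htr hxi hxF
  have hall : ∀ (G : Fin s → Derivation ℂ L L), (∀ i, Kills (G i) F) → ∀ b,
      θ b G = (mtx u G).det ^ m * θ b Du := by
    intro G hG b
    have h1 : G = fun i => ∑ l, mtx u G i l • Du l := by
      funext i
      ext f
      have h2 := Fr.eq (G i) f
      have h3 : ∀ j, G i (x j) = 0 := fun j => hG i _ (hxF j)
      rw [h2, der_sum]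
      simp only [h3, zero_mul, Finset.sum_const_zero, zero_add]
      rfl
    conv_lhs => rw [h1]
    exact hθ b _ _
  have hdet0 : (mtx u D).det ^ m ≠ 0 := by
    intro h
    apply h0
    rw [hall D hDF, h, zero_mul]
  have hθ0 : θ 0 Du ≠ 0 := by
    intro h
    apply h0
    rw [hall D hDF, h, mul_zero]
  refine ⟨fun b G => θ b Du * (big x u G).det ^ m, fun b A G => ?_,
    ⟨fun i => Sum.elim Dt Du (finSumFinEquiv.symm i), ?_⟩, fun b D1 hD1 => ?_,
    fun b Q hQ hQF G hG => ?_⟩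
  · beta_reduce
    rw [big_change, mul_pow]
    ring
  · beta_reduce
    rw [Fr.big_frame, one_pow, mul_one]
    exact hθ0
  · beta_reduce at hD1 ⊢
    rw [mul_div_mul_right _ _ (right_ne_zero_of_mul hD1), hall D hDF b.succ, hall D hDF 0,
      mul_div_mul_left _ _ hdet0]
  · beta_reduce
    by_cases hb : (big x u G).det = 0
    · left
      rw [hb, zero_pow hm.ne', mul_zero]
    obtain ⟨E, G', hE, hG', hGt, hdet⟩ := Fr.split hG hb
    have hGF : ∀ i, Kills (G' i) F := fun i => Fr.vert hHz (hGt i)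
    have h2 := hreg b Q hQ G' hGF hG'
    rw [hall G' hGF] at h2
    have h2' : GeR Q (-(m * δ Q)) ((mtx u G').det ^ m * θ b Du) := h2
    have h3 : Ge Q 0 (mtx x E).det :=
      ge_det Q _ _ (fun _ _ => 0) (fun a b => hE a _ (by
        by_cases hxb : x b = 0
        · exact Or.inl hxb
        · exact Or.inr (hQF _ (hxF b) hxb).ge)) fun σ => by simp
    have h4 : GeR Q 0 ((mtx x E).det ^ m) := by
      have h5 := h3.pow m
      rw [mul_zero] at h5
      have := geR_of h5
      simpa using this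
    have h5 := h4.mul h2'
    rw [zero_add] at h5
    have e1 : (mtx x E).det ^ m * ((mtx u G').det ^ m * θ b Du) =
        θ b Du * ((mtx x E).det * (mtx u G').det) ^ m := by ring
    rw [e1] at h5
    rcases hdet with h6 | h6
    · rw [h6]
      exact h5
    · rw [h6]
      rcases Nat.even_or_odd m with h7 | h7
      · rw [h7.neg_pow]
        exact h5
      · rw [h7.neg_pow, mul_neg]
        exact h5.neg

end

section

variable {L K : Type} [Field L] [Field K] [Algebra ℂ L] [Algebra ℂ K]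
  [Algebra L K] [IsScalarTower ℂ L K] [FiniteDimensional L K] {n : ℕ}

/-- **Pull-back of forms.** -/
theorem form_up [Algebra.EssFiniteType ℂ L] (hnL : Algebra.trdeg ℂ L = n) {d m : ℕ}
    {θ : Fin (d + 1) → (Fin n → Derivation ℂ L L) → L} (hθ : ∀ b, IsPluri m (θ b)) :
    ∃ Θ : Fin (d + 1) → (Fin n → Derivation ℂ K K) → K, (∀ b, IsPluri m (Θ b)) ∧
      (∀ b (D : Fin n → Derivation ℂ L L) (D' : Fin n → Derivation ℂ K K),
        (∀ i f, D' i (algebraMap L K f) = algebraMap L K (D i f)) →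
        Θ b D' = algebraMap L K (θ b D)) ∧
      ∀ b (P : Place ℂ K) (Q : Place ℂ L) (e : ℕ), Over P Q e → Divisorial n Q → ∀ r : ℝ,
        (∀ G : Fin n → Derivation ℂ L L, (∀ i, DerReg Q (G i)) → GeR Q r (θ b G)) →
        ∀ G : Fin n → Derivation ℂ K K, (∀ i, DerReg P (G i)) →
          GeR P (m * (e - 1) + e * r) (Θ b G) := by
  classical
  obtain ⟨yc, E, hyc, hE⟩ := exists_crd hnL
  obtain ⟨Θ, hΘ⟩ : ∃ Θ : Fin (d + 1) → (Fin n → Derivation ℂ K K) → K, ∀ b G, Θ b G =
      (Matrix.of fun i j => G i (algebraMap L K (yc j))).det ^ m * algebraMap L K (θ b E) :=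
    ⟨_, fun _ _ => rfl⟩
  refine ⟨Θ, fun b A G => ?_, fun b D D' hD' => ?_, fun b P Q e hPr hQd r hr G hG => ?_⟩
  · have e1 : (Matrix.of fun a b => (∑ j, A a j • G j) (algebraMap L K (yc b))) =
        A * Matrix.of fun a b => G a (algebraMap L K (yc b)) := by
      ext a b
      rw [Matrix.of_apply, Matrix.mul_apply, sum_smul_apply]
      rfl
    rw [hΘ, hΘ, e1, Matrix.det_mul, mul_pow, mul_assoc]
  · rw [hΘ, pluri_coord hyc hE (hθ b) D, map_mul, map_pow, RingHom.map_det]
    congr 3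
    ext i j
    rw [Matrix.of_apply, RingHom.mapMatrix_apply, Matrix.map_apply, Matrix.of_apply, hD']
  · obtain ⟨yQ, EQ, i0, hl⟩ := exists_loc hnL hQd
    have h1 : Θ b G = (Matrix.of fun i j => G i (algebraMap L K (yQ j))).det ^ m *
        algebraMap L K (θ b EQ) := by
      rw [hΘ]
      exact Pool.Agent.W73.PG.PULL.form_eq yc yQ hyc hl.bas E EQ hE hl.dual _ (hθ b) G
    by_cases hz : Θ b G = 0
    · exact Or.inl hz
    right
    have h2 : algebraMap L K (θ b EQ) ≠ 0 := by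
      intro h
      rw [h1, h, mul_zero] at hz
      exact hz rfl
    have h3 : θ b EQ ≠ 0 := by rwa [Ne, map_eq_zero] at h2
    have h4 := (hr EQ hl.pres).resolve_left h3
    have h5 := pull_reg hPr hl hG (m := m) (ω := θ b) (ge_ord Q (θ b EQ))
    rw [← h1] at h5
    have h6 := h5.resolve_left hz
    have he1 : (1 : ℝ) ≤ e := by exact_mod_cast hPr.1
    have h8 : ((m * (e - 1) + e * Q.ord (θ b EQ) : ℤ) : ℝ) ≤ (P.ord (Θ b G) : ℝ) := by
      exact_mod_cast h6
    push_cast at h8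
    refine le_trans ?_ h8
    have h10 : (e : ℝ) * r ≤ e * (Q.ord (θ b EQ) : ℝ) :=
      mul_le_mul_of_nonneg_left h4 (by linarith)
    linarith

end

end Pool.Agent.D0H90.FC
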