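import Pool.Agent.D0H90.FC.Soft

/-!
Growth of sections: finite covers of fields which are generated by a subfield and units.
-/

set_option autoImplicit false
set_option linter.unusedSectionVars false
set_option linter.overlappingInstances false

open FF Pool.Agent.W602.GT Pool.Agent.W603.LV Pool.Agent.W619.PQ Pool.Agent.TH122.AB
open Pool.Agent.TH585.SV Pool.Agent.Y172 Pool.Agent.Y191 Pool.Agent.D0H90.WA Pool.Agent.D0H90.KT

namespace Pool.Agent.D0H90.FC

section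

variable {L K : Type} [Field L] [Field K] [Algebra ℂ L] [Algebra ℂ K]
  [Algebra L K] [IsScalarTower ℂ L K] [FiniteDimensional L K] {N n : ℕ} {y : Fin (N + 1) → K}

/-- **Growth of sections**, relative form. -/
theorem rel_grow [Algebra.EssFiniteType ℂ L] (hy : NormalModel y) (hn : Algebra.trdeg ℂ K = n)
    (hnL : Algebra.trdeg ℂ L = n) {Δ : Place ℂ K → ℚ} (hΔ : Effective y Δ)
    (hLC : LogCanonical y n Δ) {F : IntermediateField ℂ L} {p : ℕ} (hp : Algebra.trdeg ℂ F = p)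
    {x : Fin p → L} (hx : AlgebraicIndependent ℂ x) (hxF : ∀ i, x i ∈ F)
    (hFx : F ≤ acl ℂ (Set.range x)) {s : ℕ} (hs : n = p + s) {r : ℕ} {z : Fin r → L}
    (hz : ∀ j, z j ≠ 0)
    (hgen : IntermediateField.adjoin ℂ ((acl ℂ (F : Set L) : Set L) ∪ Set.range z) = ⊤)
    (hbd : ∀ P, IsPrimeDivisor y P → (∀ f ∈ F, f ≠ 0 → P.ord (algebraMap L K f) = 0) →
      (∃ j, P.ord (algebraMap L K (z j)) ≠ 0) → 1 ≤ Δ P ∨ (0 < Δ P ∧
        LogVan s (algebraMap L K '' (F : Set L)) (fun j => algebraMap L K (z j)) P))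
    (huni : ∀ Q : Place ℂ L, (∀ f ∈ F, f ≠ 0 → Q.ord f = 0) → (∀ j, Q.ord (z j) = 0) →
      (∃ v : Fin (n - 1) → L, (∀ i, (∃ b, v i = x b) ∨ ∃ a : Fin r → ℤ, v i = mono z a) ∧
        ∀ G : MvPolynomial (Fin (n - 1)) ℂ, G ≠ 0 →
          MvPolynomial.aeval v G ≠ 0 ∧ Q.ord (MvPolynomial.aeval v G) = 0) →
      (∃ P, IsPrimeDivisor y P ∧ Over P Q 1 ∧ Δ P = 0) →
      ∀ (P : Place ℂ K) (e : ℕ), Over P Q e → e = 1 ∧ NonnegDisc y n Δ P)
    (hcomb : ∀ (lam m : ℕ) (η : Fin (lam + 1) → (Fin n → Derivation ℂ K K) → K)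
      (D : Fin n → Derivation ℂ K K) (ρ : Fin lam → L), IsFrame D → 0 < m →
      (∀ b, IsPluri m (η b)) → η 0 D ≠ 0 → AlgebraicIndependent F ρ →
      (∀ b, η b.succ D / η 0 D = algebraMap L K (ρ b)) →
      (∀ P, IsPrimeDivisor y P → (∀ f ∈ F, f ≠ 0 → P.ord (algebraMap L K f) = 0) →
        ∀ b, ∀ G : Fin n → Derivation ℂ K K, (∀ i, DerReg P (G i)) →
          GeR P (-(m * Δ P)) (η b G)) →
      KodairaGe n {P | IsPrimeDivisor y P} (fun P => (Δ P : ℝ)) (p + lam)) :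
    ∃ κ : ℕ, p ≤ κ ∧ κ ≤ n ∧ Grow y n Δ κ := by
  classical
  have hess := hy.ess
  obtain ⟨e, l, M, J, D, u, H, gs⟩ := exists_gs (F := F) hnL hz hgen
  -- the polynomials with positive coefficients
  obtain ⟨B, hB⟩ : ∃ B : MvPolynomial (Fin l) M → Prop, ∀ g, B g ↔ (Irreducible g ∧
      ∀ Q ∈ XL L y, Adic Q u g → 0 < dL y Δ Q) := ⟨_, fun _ => Iff.rfl⟩
  obtain ⟨M1, l', ρ, xx, u', fb⟩ := exists_fb hnL gs B
  obtain ⟨μ, c, hc, hbas⟩ := full_basis hnL gs fb
  -- the dimensions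
  have hFe : Algebra.trdeg F L = e := by
    have h3 := gs.bas.cardinalMk_eq_trdeg
    rw [Cardinal.mk_fin] at h3
    exact h3.symm
  have hne : n = p + e := by
    have h3 := trdeg_add_eq ℂ F (A := L)
    rw [hp, hFe, hnL] at h3
    exact_mod_cast h3.symm
  obtain rfl : e = s := by omega
  subst hne
  have hel : e = l' + (ρ + μ) := by
    have h3 := hbas.cardinalMk_eq_trdeg
    rw [hFe, Cardinal.mk_sum, Cardinal.mk_sum, Cardinal.mk_fin, Cardinal.mk_fin, Cardinal.mk_fin,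
      Cardinal.lift_natCast, Cardinal.lift_natCast, Cardinal.lift_natCast, ← Nat.cast_add,
      Cardinal.lift_natCast, ← Nat.cast_add] at h3
    exact_mod_cast h3.symm
  have hΔ0 : ∀ P, IsPrimeDivisor y P → (0 : ℝ) ≤ Δ P := fun P hP => by exact_mod_cast hΔ.1 P hP
  have htriv : ∀ {P : Place ℂ K} {Q : Place ℂ L} {e : ℕ}, Over P Q e →
      (∀ f ∈ F, f ≠ 0 → Q.ord f = 0) → ∀ f ∈ F, f ≠ 0 → P.ord (algebraMap L K f) = 0 := by
    intro P Q e hPQ hQ f hf hf0
    rw [hPQ.2, hQ f hf hf0, mul_zero]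
  -- the upper bound
  obtain ⟨E, hE, hEM, hEu⟩ := exists_adapted hnL gs.closed gs.ind gs.top
  choose E' hE' using fun i => exists_lift (L := K) hnL (E i)
  have hfr' : IsFrame E' := fun G => frame_up hnL hE hE' G
  have hup : ∀ A, Effective y A → ∃ C : ℕ, ∀ m : ℕ, 1 ≤ m → ∀ (r : ℕ) (f : Fin r → K),
      LinearIndependent ℂ f →
      (∀ i, ∃ ω, Y172.IsSection y (p + e) m (m • Δ + A) ω ∧ ω E' = f i) →
      r ≤ C * m ^ (p + (ρ + μ)) := by
    intro A hA
    refine upper_fin hy hn hnL hΔ hLC gs.ind gs.top fb (fun g hg hBg => ?_) hE hEM hEu (by omega)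
      hE' hA
    rw [hB] at hBg
    push Not at hBg
    obtain ⟨Q, hQ, hQg, hQδ⟩ := hBg hg
    obtain ⟨P, e', hP, hPQ, hd⟩ := dL_mem (Δ := Δ) hQ
    have he1 : (1 : ℝ) ≤ e' := by exact_mod_cast hPQ.1
    rw [hd] at hQδ
    have h1 : (1 : ℝ) ≤ (1 - (Δ P : ℝ)) / e' := by linarith
    rw [le_div_iff₀ (by linarith), one_mul] at h1
    have h2 := hΔ0 P hP
    have he : e' = 1 := by
      have h3 : (e' : ℝ) ≤ 1 := by linarith
      have h4 : e' ≤ 1 := by exact_mod_cast h3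
      have := hPQ.1
      omega
    subst he
    have hΔP : Δ P = 0 := by
      have h3 : (Δ P : ℝ) ≤ 0 := by
        push_cast at h1
        linarith
      exact le_antisymm (by exact_mod_cast h3) (hΔ.1 P hP)
    have hQF : ∀ f ∈ F, f ≠ 0 → Q.ord f = 0 := fun f hf hf0 => hQg.triv f (gs.le hf) hf0
    refine ⟨Q, divisorial_down hPQ (hP.divisorial hy hn), hQg, huni Q hQF (fun j => ?_)
      (adic_rel gs hnL hx hxF hFx hgen hg hQg) ⟨P, hP, hPQ, hΔP⟩⟩
    by_contra hcon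
    have h3 := hbd P hP (htriv hPQ hQF) ⟨j, by
      rw [hPQ.2]
      simpa using hcon⟩
    rw [hΔP] at h3
    rcases h3 with h3 | ⟨h3, -⟩
    · norm_num at h3
    · exact lt_irrefl _ h3
  -- the lower bound
  obtain ⟨m, hm, θ, hθ1, hθ2, hθ3, hθ4⟩ := lower2 gs fb (X := XL L y) (δ := dL y Δ)
    (by
      intro Q hQ
      obtain ⟨P, e, hP, hPQ, hd⟩ := dL_mem (Δ := Δ) hQ
      have he1 : (1 : ℝ) ≤ e := by exact_mod_cast hPQ.1
      have h2 := hΔ0 P hP
      rw [hd]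
      have h3 : (1 - (Δ P : ℝ)) / e ≤ 1 := by
        rw [div_le_one (by linarith)]
        linarith
      linarith)
    (by
      rintro Q hQ ⟨hQF, j, hj⟩
      obtain ⟨P, e', hP, hPQ, hd⟩ := dL_mem (Δ := Δ) hQ
      have he1 : (1 : ℝ) ≤ e' := by exact_mod_cast hPQ.1
      rcases hbd P hP (htriv hPQ hQF) ⟨j, by
          rw [hPQ.2]
          have : (e' : ℤ) ≠ 0 := by
            have := hPQ.1
            positivity
          exact mul_ne_zero this hj⟩ with h2 | ⟨h2, h3⟩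
      · left
        have h2' : (1 : ℝ) ≤ Δ P := by exact_mod_cast h2
        rw [hd]
        have h3 : (1 - (Δ P : ℝ)) / e' ≤ 0 :=
          div_nonpos_of_nonpos_of_nonneg (by linarith) (by linarith)
        linarith
      · right
        refine ⟨?_, soft_of_van (van_down hnL hPQ h3)⟩
        have h2' : (0 : ℝ) < Δ P := by exact_mod_cast h2
        rw [hd]
        have h4 : (1 - (Δ P : ℝ)) / e' < 1 := by
          rw [div_lt_one (by linarith)]
          linarith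
        linarith)
    (by
      intro g hg
      rw [hB] at hg
      exact hg)
    (fun f hf => XL_fin hy hf) hc (by
      have h3 := hbas.1.comp (Sum.inr : Fin ρ ⊕ Fin μ → Fin l' ⊕ (Fin ρ ⊕ Fin μ))
        Sum.inr_injective
      exact h3)
  -- the absolute forms
  obtain ⟨η, hη1, ⟨D0, hD0⟩, hη3, hη4⟩ := abs_form (X := XL L y) (δ := dL y Δ) hnL hp hm hθ1 hθ2
    gs.dk hθ3
  have hηE : η 0 E ≠ 0 := by
    obtain ⟨d, hd⟩ := frame_pluri hE D0
    intro h0
    apply hD0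
    rw [hd m _ (hη1 0), h0, mul_zero]
  obtain ⟨Θ, hΘ1, hΘ2, hΘ3⟩ := form_up (K := K) hnL hη1
  have hΘE : ∀ b, Θ b E' = algebraMap L K (η b E) := fun b => hΘ2 b E E' hE'
  refine ⟨p + (ρ + μ), Nat.le_add_right _ _, by omega, ⟨E', hfr', hup⟩,
    hcomb (ρ + μ) m Θ E' (fun b => θ b.succ D / θ 0 D) hfr' hm hΘ1 ?_ hθ4 (fun b => ?_)
      fun P hP hPF b G hG => ?_⟩
  · rw [hΘE, Ne, map_eq_zero]
    exact hηE
  · rw [hΘE, hΘE, ← map_div₀, hη3 b E hηE]
  · have hPr := over_bel L P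
    obtain ⟨Q, hQ⟩ : ∃ Q, Q = bel L P := ⟨_, rfl⟩
    obtain ⟨e', he⟩ : ∃ e', e' = ram L P := ⟨_, rfl⟩
    rw [← hQ, ← he] at hPr
    have hQd : Divisorial (p + e) Q := divisorial_down hPr (hP.divisorial hy hn)
    have hQX : Q ∈ XL L y := ⟨P, e', hP, hPr⟩
    have he1 : (1 : ℝ) ≤ e' := by exact_mod_cast hPr.1
    have hQF : ∀ f ∈ F, f ≠ 0 → Q.ord f = 0 := by
      intro f hf hf0
      have h1 := hPF f hf hf0
      rw [hPr.2] at h1
      have h2 : (e' : ℤ) ≠ 0 := by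
        have := hPr.1
        positivity
      exact (mul_eq_zero.1 h1).resolve_left h2
    have h1 := hΘ3 b P Q e' hPr hQd _ (fun G hG => hη4 b Q hQX hQF G hG) G hG
    refine h1.mono ?_
    have h7 := dL_le (Δ := Δ) hP hPr
    have hm0 : (0 : ℝ) ≤ m := Nat.cast_nonneg _
    have h9 : (e' : ℝ) * (1 - (1 - (Δ P : ℝ)) / e') = e' - (1 - (Δ P : ℝ)) := by
      field_simp
    have h11 : (e' : ℝ) * (m * dL y Δ Q) ≤ m * (e' - (1 - (Δ P : ℝ))) := by
      rw [← h9]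
      calc (e' : ℝ) * (m * dL y Δ Q) = (m * e') * dL y Δ Q := by ring
        _ ≤ (m * e') * (1 - (1 - (Δ P : ℝ)) / e') :=
          mul_le_mul_of_nonneg_left h7 (by positivity)
        _ = m * (e' * (1 - (1 - (Δ P : ℝ)) / e')) := by ring
    nlinarith

end

end Pool.Agent.D0H90.FC
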