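import Pool.Agent.D0H90.FC.AdicRel

/-!
Logarithmic forms which are regular along a divisor, in terms of their values at logarithmic vector
fields.
-/

set_option autoImplicit false
set_option linter.unusedSectionVars false
set_option linter.overlappingInstances false

open FF Pool.Agent.W602.GT Pool.Agent.W603.LV Pool.Agent.W619.PQ Pool.Agent.TH122.AB
open Pool.Agent.TH585.SV Pool.Agent.Y172 Pool.Agent.D0H90.WA

namespace Pool.Agent.D0H90.FC

section

variable {k K : Type} [Field k] [CharZero k] [Field K] [Algebra k K]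

theorem reg_log {P : Place k K} {G : Derivation k K K} (hG : DerReg P G) {t : K}
    (ht : P.ord t = 1) (h : Ge P 1 (G t)) : DerLog P G := by
  have ht0 : t ≠ 0 := by
    rintro rfl
    rw [P.ord_zero] at ht
    exact zero_ne_one ht
  intro f
  by_cases hf : f = 0
  · rw [hf, map_zero, zero_div]
    exact P.reg_zero
  obtain ⟨c, hc⟩ : ∃ c, c = P.ord f := ⟨_, rfl⟩
  obtain ⟨u, hu⟩ : ∃ u, u = f / t ^ c := ⟨_, rfl⟩
  have htk : t ^ c ≠ 0 := zpow_ne_zero _ ht0
  have hfu : f = u * t ^ c := by rw [hu, div_mul_cancel₀ _ htk]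
  have hu0 : u ≠ 0 := by
    rw [hu]
    exact div_ne_zero hf htk
  have huo : P.ord u = 0 := by
    rw [hu, P.ord_div hf htk, P.ord_zpow, ht, hc]
    ring
  have h1 : G f / f = G u / u + (c : K) * (G t / t) := by
    have h2 := G.leibniz_zpow t c
    have h4 : G (t ^ c) = (c : K) * (G t / t) * t ^ c := by
      rw [h2, smul_eq_mul, zsmul_eq_mul, zpow_sub_one₀ ht0]
      field_simp
    rw [hfu, G.leibniz, smul_eq_mul, smul_eq_mul, h4]
    field_simp
    ring
  rw [h1]
  have h5 : Ge P 0 (G u / u) := by
    have h6 : Ge P 0 (G u) := hG u (Or.inr huo.ge)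
    rcases h6 with h6 | h6
    · left
      rw [h6, zero_div]
    · by_cases h7 : G u = 0
      · left
        rw [h7, zero_div]
      · right
        rw [P.ord_div h7 hu0, huo, sub_zero]
        exact h6
  have h6 : Ge P 0 (G t / t) := by
    by_cases h7 : G t = 0
    · left
      rw [h7, zero_div]
    · right
      have h8 := h.resolve_left h7
      rw [P.ord_div h7 ht0, ht]
      omega
  have h7 : Ge P 0 (c : K) := by
    have := Ge.const (P := P) ((c : ℤ) : k)
    rwa [map_intCast] at this
  have h8 := h7.mul h6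
  rw [add_zero] at h8
  exact h5.add h8

/-- The values of the logarithmic forms `dt/t ∧ ... ∧ dt/t` of degree `s` at logarithmic vector fields
which vanish on `F` are zero along `P`. -/
def LogVan (s : ℕ) {r : ℕ} (F : Set K) (t : Fin r → K) (P : Place k K) : Prop :=
  ∀ (T : Fin s → Fin r) (G : Fin s → Derivation k K K), (∀ i, ∀ f ∈ F, G i f = 0) →
    (∀ i, DerLog P (G i)) →
    Ge P 1 (Matrix.of fun i j => G i (t (T j)) / t (T j) : Matrix (Fin s) (Fin s) K).det

theorem soft_of_van {F : IntermediateField k K} {s r : ℕ} {t : Fin r → K} {P : Place k K}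
    (h : LogVan s (F : Set K) t P) : Soft F s t P := by
  classical
  intro T G hGF hGr
  obtain ⟨f1, hf10, hf1⟩ := P.surj
  by_cases hall : ∀ i, Ge P 1 (G i f1)
  · have h1 := h T G hGF fun i => reg_log (hGr i) hf1 (hall i)
    exact h1.mono zero_le_one
  push Not at hall
  obtain ⟨i0, hi0⟩ := hall
  have hi00 : G i0 f1 ≠ 0 := fun h0 => hi0 (Or.inl h0)
  have hi1 : P.ord (G i0 f1) = 0 := by
    have h1 := (hGr i0 f1 (Or.inr (by rw [hf1]; exact zero_le_one))).resolve_left hi00
    by_contra h2
    exact hi0 (Or.inr (by omega))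
  obtain ⟨c, hc⟩ : ∃ c : Fin s → K, ∀ i, c i = if i = i0 then 0 else -(G i f1 / G i0 f1) :=
    ⟨_, fun _ => rfl⟩
  have hcr : ∀ i, Ge P 0 (c i) := by
    intro i
    rw [hc]
    split_ifs
    · exact Ge.zero
    · refine Ge.neg ?_
      by_cases h1 : G i f1 = 0
      · left
        rw [h1, zero_div]
      · right
        have h2 := (hGr i f1 (Or.inr (by rw [hf1]; exact zero_le_one))).resolve_left h1
        rw [P.ord_div h1 hi00, hi1, sub_zero]
        exact h2
  obtain ⟨G', hG'⟩ : ∃ G' : Fin s → Derivation k K K, ∀ i, G' i =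
      if i = i0 then f1 • G i0 else G i + c i • G i0 := ⟨_, fun _ => rfl⟩
  have hlog : ∀ i, DerLog P (G' i) := by
    intro i
    rw [hG']
    split_ifs with hi
    · refine reg_log (fun f hf => ?_) hf1 ?_
      · change Ge P 0 (f1 * G i0 f)
        have h1 : Ge P 1 f1 := Or.inr hf1.ge
        have h2 := h1.mul (show Ge P 0 (G i0 f) from hGr i0 f hf)
        exact h2.mono (by norm_num)
      · change Ge P 1 (f1 * G i0 f1)
        have h1 : Ge P 1 f1 := Or.inr hf1.ge
        have h2 := h1.mul (show Ge P 0 (G i0 f1) from Or.inr hi1.ge)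
        exact h2.mono (by norm_num)
    · refine log_of_kill (fun f hf => ?_) hf10 ?_ (by rw [hf1]; exact one_ne_zero)
      · change Ge P 0 (G i f + c i * G i0 f)
        have h2 := (hcr i).mul (show Ge P 0 (G i0 f) from hGr i0 f hf)
        rw [add_zero] at h2
        exact (show Ge P 0 (G i f) from hGr i f hf).add h2
      · change G i f1 + c i * G i0 f1 = 0
        rw [hc, if_neg hi]
        field_simp
        ring
  have h1 := h T G' (fun i f hf => by
    rw [hG']
    split_ifs with hi
    · change f1 * G i0 f = 0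
      rw [hGF i0 f hf, mul_zero]
    · change G i f + c i * G i0 f = 0
      rw [hGF i f hf, hGF i0 f hf, mul_zero, add_zero]) hlog
  obtain ⟨A, hA⟩ : ∃ A : Matrix (Fin s) (Fin s) K,
      A = Matrix.of fun i j => G i (t (T j)) / t (T j) := ⟨_, rfl⟩
  obtain ⟨B, hB⟩ : ∃ B : Matrix (Fin s) (Fin s) K,
      B = Matrix.of fun i j => A i j + c i * A i0 j := ⟨_, rfl⟩
  have hBA : B.det = A.det := by
    refine Matrix.det_eq_of_forall_row_eq_smul_add_const c i0 ?_ fun i j => ?_
    · rw [hc, if_pos rfl]
    · rw [hB, Matrix.of_apply]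
  have hdet : (Matrix.of fun i j => G' i (t (T j)) / t (T j) : Matrix (Fin s) (Fin s) K).det =
      f1 * A.det := by
    have h2 : (Matrix.of fun i j => G' i (t (T j)) / t (T j) : Matrix (Fin s) (Fin s) K) =
        B.updateRow i0 (f1 • B i0) := by
      ext i j
      by_cases hi : i = i0
      · subst hi
        rw [Matrix.updateRow_self, Matrix.of_apply, hG', if_pos rfl, Pi.smul_apply, smul_eq_mul,
          hB, Matrix.of_apply, hc, if_pos rfl, zero_mul, add_zero, hA, Matrix.of_apply]
        change f1 * G i (t (T j)) / t (T j) = _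
        rw [mul_div_assoc]
      · rw [Matrix.updateRow_ne hi, Matrix.of_apply, hG', if_neg hi, hB, Matrix.of_apply, hA,
          Matrix.of_apply, Matrix.of_apply]
        change (G i (t (T j)) + c i * G i0 (t (T j))) / t (T j) = _
        rw [add_div, mul_div_assoc]
    rw [h2, Matrix.det_updateRow_smul, Matrix.updateRow_eq_self, hBA]
  rw [hdet] at h1
  rw [← hA]
  by_cases hA0 : A.det = 0
  · exact Or.inl hA0
  right
  have h2 := h1.resolve_left (mul_ne_zero hf10 hA0)
  rw [P.ord_mul hf10 hA0, hf1] at h2
  omega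

end

section

variable {k L K : Type} [Field k] [CharZero k] [Field L] [Field K] [Algebra k L] [Algebra k K]
  [Algebra L K] [IsScalarTower k L K] [FiniteDimensional L K]

theorem van_down {n : ℕ} (hnL : Algebra.trdeg k L = n) {F : IntermediateField k L} {s r : ℕ}
    {t : Fin r → L} {P : Place k K} {Q : Place k L} {e : ℕ} (hPQ : Over P Q e)
    (h : LogVan s (algebraMap L K '' (F : Set L)) (fun j => algebraMap L K (t j)) P) :
    LogVan s (F : Set L) t Q := by
  classical
  intro T G hGF hGl
  choose G' hG' using fun i => exists_lift (L := K) hnL (G i)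
  have h1 := h T G' (by
    rintro i _ ⟨f, hf, rfl⟩
    rw [hG', hGF i f hf, map_zero]) fun i => lift_log hPQ (hGl i) (hG' i)
  have h2 : (Matrix.of fun i j => G' i (algebraMap L K (t (T j))) / algebraMap L K (t (T j)) :
      Matrix (Fin s) (Fin s) K).det = algebraMap L K (Matrix.of fun i j => G i (t (T j)) / t (T j) :
      Matrix (Fin s) (Fin s) L).det := by
    rw [RingHom.map_det]
    congr 1
    ext i j
    rw [Matrix.of_apply, RingHom.mapMatrix_apply, Matrix.map_apply, Matrix.of_apply, hG', map_div₀]
  rw [h2] at h1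
  rcases h1 with h1 | h1
  · left
    rwa [map_eq_zero] at h1
  · right
    rw [hPQ.2] at h1
    by_contra hcon
    push Not at hcon
    have : (e : ℤ) * Q.ord (Matrix.of fun i j => G i (t (T j)) / t (T j) :
        Matrix (Fin s) (Fin s) L).det ≤ 0 :=
      mul_nonpos_of_nonneg_of_nonpos (by positivity) (by omega)
    omega

end

end Pool.Agent.D0H90.FC
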