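import Pool.Agent.Y172.Cov5

/-!
Traces of sections in finite extensions.
-/

set_option autoImplicit false
set_option linter.unusedSectionVars false
set_option linter.overlappingInstances false

open FF Pool.Agent.W602.GT Pool.Agent.W603.LV Pool.Agent.W619.PQ Pool.Agent.Y172

namespace Pool.Agent.D0H90.FC

section

variable {k L K : Type} [Field k] [CharZero k] [Field L] [Field K] [Algebra k L] [Algebra k K]
  [Algebra L K] [IsScalarTower k L K] [FiniteDimensional L K]

/-- the order of a trace -/
theorem trace_ge (Q : Place k L) {z : K} {c : ℕ}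
    (h : ∀ (P : Place k K) (e : ℕ), Over P Q e → Ge P (-(c : ℤ)) z) :
    Ge Q (-(c : ℤ)) (Algebra.trace L K z) := by
  obtain ⟨t, ht0, ht⟩ := Q.surj
  have h1 : Q.Reg (Algebra.trace L K (algebraMap L K (t ^ c) * z)) := by
    refine trace_reg Q _ fun P e hP => ?_
    have h2 : Ge P (e * c) (algebraMap L K (t ^ c)) :=
      (over_ge hP).2 (Or.inr (by rw [Q.ord_pow, ht, mul_one]))
    refine (h2.mul (h P e hP)).mono ?_
    have h3 : (1 : ℤ) ≤ e := by exact_mod_cast hP.1
    have h4 : (0 : ℤ) ≤ c := Int.natCast_nonneg _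
    nlinarith
  rw [← Algebra.smul_def, map_smul, smul_eq_mul] at h1
  by_cases h0 : Algebra.trace L K z = 0
  · exact Or.inl h0
  right
  have htc : t ^ c ≠ 0 := pow_ne_zero _ ht0
  rw [Q.reg_iff (mul_ne_zero htc h0), Q.ord_mul htc h0, Q.ord_pow, ht, mul_one] at h1
  omega

/-- counting with traces -/
theorem trace_count {V : Submodule k K} {d : ℕ} (b : Fin d → K)
    (hb : ∀ x : K, (∀ i, Algebra.trace L K (b i * x) = 0) → x = 0) {B : Fin d → ℕ}
    (hB : ∀ (i : Fin d) (r : ℕ) (f : Fin r → L), LinearIndependent k f →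
      (∀ j, ∃ x ∈ V, f j = Algebra.trace L K (b i * x)) → r ≤ B i)
    (r : ℕ) (f : Fin r → K) (hf : LinearIndependent k f) (hfV : ∀ j, f j ∈ V) :
    r ≤ ∑ i, B i := by
  classical
  let W : Submodule k K := Submodule.span k (Set.range f)
  have hWV : W ≤ V := Submodule.span_le.2 (by
    rintro _ ⟨j, rfl⟩
    exact hfV j)
  have hWfin : FiniteDimensional k W := FiniteDimensional.span_of_finite k (Set.finite_range f)
  have hWr : Module.finrank k W = r := by
    have h1 := finrank_span_eq_card hf
    rw [Fintype.card_fin] at h1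
    exact h1
  let T : Fin d → K →ₗ[k] L := fun i =>
    ((Algebra.trace L K).restrictScalars k).comp (LinearMap.mulLeft k (b i))
  have hT : ∀ i x, T i x = Algebra.trace L K (b i * x) := fun _ _ => rfl
  let U : Fin d → Submodule k L := fun i => W.map (T i)
  have hUfin : ∀ i, FiniteDimensional k (U i) := fun i => inferInstance
  have hUB : ∀ i, Module.finrank k (U i) ≤ B i := by
    intro i
    have hbas := Module.finBasis k (U i)
    refine hB i _ (fun j => (hbas j : L)) ?_ fun j => ?_
    · exact hbas.linearIndependent.map' (U i).subtype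
        (LinearMap.ker_eq_bot.2 (Submodule.injective_subtype _))
    · obtain ⟨x, hx, hxj⟩ := Submodule.mem_map.1 (hbas j).2
      exact ⟨x, hWV hx, by rw [← hxj, hT]⟩
  let Φ : W →ₗ[k] (∀ i, U i) := LinearMap.pi fun i =>
    ((T i).restrict (p := W) (q := U i) fun x hx => Submodule.mem_map_of_mem hx)
  have hΦ : Function.Injective Φ := by
    rw [injective_iff_map_eq_zero]
    intro x hx
    apply Subtype.ext
    refine hb _ fun i => ?_
    have h1 := congrFun hx i
    have h2 := congrArg Subtype.val h1
    exact h2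
  have h1 := LinearMap.finrank_le_finrank_of_injective hΦ
  rw [hWr, Module.finrank_pi_fintype] at h1
  exact h1.trans (Finset.sum_le_sum fun i _ => hUB i)

end

section

variable {L K : Type} [Field L] [CharZero L] [Field K] [Algebra L K] [FiniteDimensional L K]

/-- the trace form is nondegenerate -/
theorem trace_basis {d : ℕ} (b : Module.Basis (Fin d) L K) (x : K)
    (h : ∀ i, Algebra.trace L K (b i * x) = 0) : x = 0 := by
  have h1 : ∀ y : K, Algebra.trace L K (y * x) = 0 := by
    intro y
    rw [← b.sum_repr y, Finset.sum_mul, map_sum]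
    refine Finset.sum_eq_zero fun i _ => ?_
    rw [smul_mul_assoc, map_smul, h i, smul_zero]
  by_contra hx
  have h2 := h1 (algebraMap L K 1 * x⁻¹)
  rw [mul_assoc, inv_mul_cancel₀ hx, mul_one, Algebra.trace_algebraMap] at h2
  have h3 : (Module.finrank L K : L) ≠ 0 := by
    have := Module.finrank_pos (R := L) (M := K)
    exact_mod_cast this.ne'
  apply h3
  simpa using h2

end

end Pool.Agent.D0H90.FC
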