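import Pool.Agent.D0H90.FC.Adic
import Pool.Agent.D0H90.WA.Upp

/-!
The upper bound for the number of the sections on a finite cover.
-/

set_option autoImplicit false
set_option linter.unusedSectionVars false
set_option linter.overlappingInstances false

open FF Pool.Agent.W602.GT Pool.Agent.W603.LV Pool.Agent.W619.PQ Pool.Agent.TH122.AB
open Pool.Agent.Y172 Pool.Agent.D0H90.WA

namespace Pool.Agent.D0H90.FC

section

variable {k L K : Type} [Field k] [CharZero k] [Field L] [Field K] [Algebra k L] [Algebra k K]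
  [Algebra L K] [IsScalarTower k L K] [FiniteDimensional L K] {n : ℕ}

/-- derivations with the same values on the subfield are equal -/
theorem der_ext_up (hn : Algebra.trdeg k L = n) {D₁ D₂ : Derivation k K K}
    (h : ∀ f : L, D₁ (algebraMap L K f) = D₂ (algebraMap L K f)) : D₁ = D₂ := by
  obtain ⟨yc, E, hyc, hE⟩ := exists_crd hn
  choose E' hE' using fun i => exists_lift (L := K) hn (E i)
  have h1 := Pool.Agent.W73.PG.PULL.expand _ (hyc.algebraMap_comp (A := K)) E' (lift_dual hE hE') D₁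
  have h2 := Pool.Agent.W73.PG.PULL.expand _ (hyc.algebraMap_comp (A := K)) E' (lift_dual hE hE') D₂
  rw [← h1, ← h2]
  refine Finset.sum_congr rfl fun j _ => ?_
  change D₁ (algebraMap L K (yc j)) • E' j = D₂ (algebraMap L K (yc j)) • E' j
  rw [h]

/-- the lifts of the vector fields of a frame -/
theorem frame_up (hn : Algebra.trdeg k L = n) {D : Fin n → Derivation k L L}
    (hD : ∀ E : Derivation k L L, ∃ a : Fin n → L, E = ∑ j, a j • D j)
    {D' : Fin n → Derivation k K K}
    (hD' : ∀ i f, D' i (algebraMap L K f) = algebraMap L K (D i f)) (G : Derivation k K K) :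
    ∃ a : Fin n → K, G = ∑ j, a j • D' j := by
  classical
  obtain ⟨yc, E, hyc, hE⟩ := exists_crd hn
  choose E' hE' using fun i => exists_lift (L := K) hn (E i)
  choose a ha using fun i => hD (E i)
  have h1 : ∀ i, E' i = ∑ j, algebraMap L K (a i j) • D' j := by
    intro i
    refine der_ext_up hn fun f => ?_
    rw [hE', sum_smul_apply, ha i, sum_smul_apply, map_sum]
    refine Finset.sum_congr rfl fun j _ => ?_
    rw [hD', map_mul]
  refine ⟨fun j => ∑ i, G (algebraMap L K (yc i)) * algebraMap L K (a i j), ?_⟩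
  have h2 := Pool.Agent.W73.PG.PULL.expand _ (hyc.algebraMap_comp (A := K)) E' (lift_dual hE hE') G
  conv_lhs => rw [← h2]
  refine Derivation.ext fun f => ?_
  rw [sum_smul_apply, sum_smul_apply]
  have h3 : ∀ i, E' i f = ∑ j, algebraMap L K (a i j) * D' j f := by
    intro i
    rw [h1, sum_smul_apply]
  simp only [h3, Finset.mul_sum, Finset.sum_mul]
  rw [Finset.sum_comm]
  refine Finset.sum_congr rfl fun j _ => Finset.sum_congr rfl fun i _ => ?_
  change G (algebraMap L K (yc i)) * (algebraMap L K (a i j) * D' j f) = _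
  ring

end

section

variable {L K : Type} [Field L] [Field K] [Algebra ℂ L] [Algebra ℂ K]
  [Algebra L K] [IsScalarTower ℂ L K] [FiniteDimensional L K] {N n : ℕ} {y : Fin (N + 1) → K}
variable {M M1 : IntermediateField ℂ L} {l l' ρ : ℕ} {u : Fin l → L}
  {B : MvPolynomial (Fin l) M → Prop} {x : Fin ρ → L} {u' : Fin l' → L}

theorem frame_loc {P : Place ℂ K} {yP : Fin n → K} {EP : Fin n → Derivation ℂ K K} {i0 : Fin n}
    (hl : Loc P yP EP i0) : IsFrame EP := by
  intro G
  exact ⟨fun j => G (yP j), (Pool.Agent.W73.PG.PULL.expand yP hl.bas EP hl.dual G).symm⟩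

theorem det_reg {P : Place ℂ K} {yP : Fin n → K} {EP : Fin n → Derivation ℂ K K} {i0 : Fin n}
    (hl : Loc P yP EP i0) {G : Fin n → Derivation ℂ K K} (hG : ∀ i, DerReg P (G i)) :
    Ge P 0 (Matrix.of fun i j => G i (yP j)).det :=
  ge_det P _ _ (fun _ _ => 0) (fun a b => hG a _ (hl.reg b)) fun σ => by simp

/-- sections at unramified places of nonnegative discrepancy -/
theorem unram_bound [Algebra.EssFiniteType ℂ L] (hy : NormalModel y)
    (hn : Algebra.trdeg ℂ K = n) (hnL : Algebra.trdeg ℂ L = n) {Δ A : Place ℂ K → ℚ}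
    {D : Fin n → Derivation ℂ L L} {D' : Fin n → Derivation ℂ K K}
    (hD' : ∀ i f, D' i (algebraMap L K f) = algebraMap L K (D i f))
    {Q : Place ℂ L} (hQ : Divisorial n Q) (hDr : ∀ i, DerReg Q (D i)) {P : Place ℂ K}
    (h : Over P Q 1) (hdisc : NonnegDisc y n Δ P) {j : Fin (N + 1)} (hj : Centred y j P) {s : K}
    (hs : s ∈ chart y j) (hs0 : s ≠ 0)
    (hsP : ∀ P, IsPrimeDivisor y P → Centred y j P → A P ≠ 0 → (⌈A P⌉₊ : ℤ) ≤ P.ord s) (m : ℕ)
    {ω : (Fin n → Derivation ℂ K K) → K} (hω : Y172.IsSection y n m (m • Δ + A) ω) :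
    Ge P (-(P.ord s)) (ω D') := by
  classical
  have hess := hy.ess
  have hPd : Divisorial n P := divisorial_up h hQ
  obtain ⟨yP, EP, iP, hlP⟩ := exists_loc hn hPd
  have h1 := can_bound hy hdisc (frame_loc hlP) hlP.pres hj hs hs0 hsP m hω
  have hreg : ∀ G : Fin n → Derivation ℂ K K, (∀ i, DerReg P (G i)) →
      ω G = 0 ∨ ((-(P.ord s) : ℤ) : ℝ) ≤ P.ord (ω G) := by
    intro G hG
    have h2 := pluri_coord hlP.bas hlP.dual hω.1 G
    have h3 := ((det_reg hlP hG).pow m).mul h1
    rw [mul_zero, zero_add, ← h2] at h3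
    rcases h3 with h3 | h3
    · exact Or.inl h3
    · right
      exact_mod_cast h3
  obtain ⟨yQ, EQ, i0, hl⟩ := exists_loc hnL hQ
  choose EQ' hEQ' using fun i => exists_lift (L := K) hnL (EQ i)
  have h4 := down_ge hn h hPd hl hEQ' hω.1 hreg
  have h5 : Ge P (-(P.ord s)) (ω EQ') := by
    rcases h4 with h4 | h4
    · exact Or.inl h4
    · right
      have h6 : ((-(P.ord s) : ℤ) : ℝ) ≤ (P.ord (ω EQ') : ℝ) := by
        refine le_trans (le_of_eq ?_) h4
        push_cast
        ring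
      exact_mod_cast h6
  have h6 := pluri_coord (hl.bas.algebraMap_comp (A := K)) (lift_dual hl.dual hEQ') hω.1 D'
  have h7 : Ge P 0 (Matrix.of fun i j => D' i (algebraMap L K (yQ j))).det :=
    ge_det P _ _ (fun _ _ => 0) (fun a b => by
      change Ge P 0 (D' a (algebraMap L K (yQ b)))
      rw [hD']
      exact h.reg.2 (hDr a _ (hl.reg b))) fun σ => by simp
  have h8 := (h7.pow m).mul h5
  rw [mul_zero, zero_add] at h8
  rw [h6]
  exact h8

/-- **The upper bound for the number of the sections** in terms of a subfield. -/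
theorem upper_fin [Algebra.EssFiniteType ℂ L] (hy : NormalModel y)
    (hn : Algebra.trdeg ℂ K = n) (hnL : Algebra.trdeg ℂ L = n) {Δ : Place ℂ K → ℚ}
    (hΔ : Effective y Δ) (hLC : LogCanonical y n Δ) (hu : AlgebraicIndependent M u)
    (htop : IntermediateField.adjoin ℂ ((M : Set L) ∪ Set.range u) = ⊤)
    (fb : Fb M M1 u B x u')
    (hB : ∀ g, Irreducible g → ¬ B g → ∃ Q : Place ℂ L, Divisorial n Q ∧ Adic Q u g ∧
      ∀ (P : Place ℂ K) (e : ℕ), Over P Q e → e = 1 ∧ NonnegDisc y n Δ P)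
    {D : Fin n → Derivation ℂ L L} (hD : IsFrame D) (hDM : ∀ i, ∀ x ∈ M, D i x ∈ M)
    (hDu : ∀ i j, ∃ γ ∈ M, D i (u j) = γ * u j) {κ : ℕ} (hκ : n = κ + l')
    {D' : Fin n → Derivation ℂ K K}
    (hD' : ∀ i f, D' i (algebraMap L K f) = algebraMap L K (D i f))
    {A : Place ℂ K → ℚ} (hA : Effective y A) :
    ∃ C : ℕ, ∀ m : ℕ, 1 ≤ m → ∀ (r : ℕ) (f : Fin r → K), LinearIndependent ℂ f →
      (∀ i, ∃ ω, Y172.IsSection y n m (m • Δ + A) ω ∧ ω D' = f i) → r ≤ C * m ^ κ := by
  classical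
  have hess := hy.ess
  have hG := gens_of_top hu htop
  have hfr' : IsFrame D' := fun G => frame_up hnL hD hD' G
  have hcL : CharZero L := charZero_of_injective_algebraMap (algebraMap ℂ L).injective
  -- the functions with high orders in the charts
  have hhigh : ∀ j : Fin (N + 1), ∃ s : K, s ≠ 0 ∧ (y j ≠ 0 → s ∈ chart y j) ∧
      ∀ P, IsPrimeDivisor y P → Centred y j P → A P ≠ 0 → (⌈A P⌉₊ : ℤ) ≤ P.ord s := by
    intro j
    obtain ⟨s, hs, hs0, hsP⟩ := exists_high (y := y) (j := j)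
      (S := {P | IsPrimeDivisor y P ∧ Centred y j P ∧ A P ≠ 0})
      (hA.2.subset (by
        rintro P ⟨h1, -, h2⟩
        exact ⟨h1, h2⟩)) (fun P hP => hP.2.1) (fun P hP => hP.1) (fun P => ⌈A P⌉₊)
    exact ⟨s, hs0, fun _ => hs, fun P h1 h2 h3 => hsP P ⟨h1, h2, h3⟩⟩
  choose s hs0 hsc hsP using hhigh
  have hbs0 : ∀ i, Module.finBasis L K i ≠ 0 := fun i => (Module.finBasis L K).ne_zero i
  have hmain : ∀ i : Fin (Module.finrank L K), ∃ C : ℕ, ∀ m : ℕ, 1 ≤ m → ∀ (r : ℕ)
      (f : Fin r → L), LinearIndependent ℂ f →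
      (∀ j, ∃ ω, Y172.IsSection y n m (m • Δ + A) ω ∧
        f j = Algebra.trace L K (Module.finBasis L K i * ω D')) → r ≤ C * m ^ κ := by
    intro i
    obtain ⟨b, hb⟩ : ∃ b, b = Module.finBasis L K i := ⟨_, rfl⟩
    have hb0 : b ≠ 0 := by
      rw [hb]
      exact hbs0 i
    rw [← hb]
    obtain ⟨𝓕, h𝓕⟩ : ∃ 𝓕 : ℕ → Set L, ∀ m f, f ∈ 𝓕 m ↔
        ∃ ω, Y172.IsSection y n m (m • Δ + A) ω ∧ f = Algebra.trace L K (b * ω D') :=
      ⟨fun m => {f | ∃ ω, Y172.IsSection y n m (m • Δ + A) ω ∧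
        f = Algebra.trace L K (b * ω D')}, fun _ _ => Iff.rfl⟩
    let c : Place ℂ K → ℕ := fun P => (∑ j, (P.ord (s j)).natAbs) + (P.ord b).natAbs
    have hfin : ∀ Q : Place ℂ L, {P : Place ℂ K | ∃ e, Over P Q e}.Finite := fun Q =>
      finite_over (K' := K) Q
    have hsum : ∀ (Q : Place ℂ L) (φ : Place ℂ K → ℕ) (P : Place ℂ K) (e : ℕ), Over P Q e →
        φ P ≤ ∑ P ∈ (hfin Q).toFinset, φ P := by
      intro Q φ P e hP
      exact Finset.single_le_sum (f := φ) (fun _ _ => Nat.zero_le _)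
        ((Set.Finite.mem_toFinset (hfin Q)).2 ⟨e, hP⟩)
    have hbge : ∀ P : Place ℂ K, Ge P (-((P.ord b).natAbs : ℤ)) b := fun P => Or.inr (by omega)
    obtain ⟨S0, hS0⟩ := sec_fin hy hΔ hA D'
    let S : Finset L := (insert b S0).biUnion fun t =>
      (minpoly L t).support.image (minpoly L t).coeff
    have hSreg : ∀ (Q : Place ℂ L), (∀ t ∈ S, Q.Reg t) → ∀ (P : Place ℂ K) (e : ℕ), Over P Q e →
        ∀ t ∈ insert b S0, P.Reg t := by
      intro Q hQ P e hP t ht
      refine reg_of_monic hP (minpoly.monic (Algebra.IsIntegral.isIntegral t))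
        (minpoly.aeval L t) fun i => ?_
      by_cases hi : (minpoly L t).coeff i = 0
      · rw [hi]
        exact Q.reg_zero
      · exact hQ _ (Finset.mem_biUnion.2 ⟨t, ht, Finset.mem_image.2
          ⟨i, Polynomial.mem_support_iff.2 hi, rfl⟩⟩)
    obtain ⟨C, hC⟩ := upperF hnL hu htop fb hDM hDu hκ 𝓕
      (X := {Q : Place ℂ L | ∃ g, Irreducible g ∧ Divisorial n Q ∧ Adic Q u g ∧
        ∀ (P : Place ℂ K) (e : ℕ), Over P Q e → e = 1 ∧ NonnegDisc y n Δ P})
      (A := fun Q => ∑ P ∈ (hfin Q).toFinset, c P)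
      (by
        have h1 : (⋃ j, {Q : Place ℂ L |
            (∃ g : MvPolynomial (Fin l) M, Irreducible g ∧ Adic Q u g) ∧
            ∃ (P : Place ℂ K) (e : ℕ), Over P Q e ∧ P.ord (s j) ≠ 0}).Finite :=
          Set.finite_iUnion fun j => adic_fin_up hG (hs0 j)
        refine (h1.union (adic_fin_up hG hb0)).subset ?_
        rintro Q ⟨⟨g, hg, -, hQg, -⟩, h2⟩
        beta_reduce at h2
        obtain ⟨P, hP, hPc⟩ := Finset.exists_ne_zero_of_sum_ne_zero h2
        obtain ⟨e, hP⟩ := (Set.Finite.mem_toFinset (hfin Q)).1 hP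
        by_cases h3 : P.ord b = 0
        · left
          have h4 : ∑ j, (P.ord (s j)).natAbs ≠ 0 := by
            intro h4
            apply hPc
            change (∑ j, (P.ord (s j)).natAbs) + (P.ord b).natAbs = 0
            rw [h4, h3]
            rfl
          obtain ⟨j, -, hj⟩ := Finset.exists_ne_zero_of_sum_ne_zero h4
          exact Set.mem_iUnion.2 ⟨j, ⟨g, hg, hQg⟩, P, e, hP, fun h => hj (by rw [h]; rfl)⟩
        · exact Or.inr ⟨⟨g, hg, hQg⟩, P, e, hP, h3⟩)
      (by
        intro g hg hBg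
        obtain ⟨Q, hQd, hQg, hall⟩ := hB g hg hBg
        refine ⟨Q, ⟨g, hg, hQd, hQg, hall⟩, hQg, fun hDr m hm f hf => ?_⟩
        obtain ⟨ω, hω, rfl⟩ := (h𝓕 m f).1 hf
        refine trace_ge Q fun P e hP => ?_
        obtain ⟨rfl, hdisc⟩ := hall P e hP
        obtain ⟨j, hj⟩ := exists_centred hy P
        have h1 := unram_bound hy hn hnL hD' hQd hDr hP hdisc hj (hsc j hj.1) (hs0 j) (hsP j) m hω
        refine ((hbge P).mul h1).mono ?_
        have h2 := hsum Q c P 1 hP
        have h3 : (P.ord (s j)).natAbs ≤ ∑ j, (P.ord (s j)).natAbs :=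
          Finset.single_le_sum (f := fun j => (P.ord (s j)).natAbs) (fun _ _ => Nat.zero_le _)
            (Finset.mem_univ j)
        have h4 : c P = (∑ j, (P.ord (s j)).natAbs) + (P.ord b).natAbs := rfl
        omega)
      (by
        intro Q hQ hDl
        have h1 : ∀ P : Place ℂ K, ∃ β : ℕ, (∃ e, Over P Q e) → ∀ m : ℕ, 1 ≤ m → ∀ ω,
            Y172.IsSection y n m (m • Δ + A) ω → Ge P (-(β : ℤ)) (ω D') := by
          intro P
          by_cases hP : ∃ e, Over P Q e
          · obtain ⟨e, hP⟩ := hP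
            obtain ⟨β, hβ⟩ := lc_bound hy hn hLC hA (divisorial_up hP hQ) hfr'
              fun i => lift_log hP (hDl i) (hD' i)
            exact ⟨β, fun _ => hβ⟩
          · exact ⟨0, fun h => absurd h hP⟩
        choose β hβ using h1
        refine ⟨∑ P ∈ (hfin Q).toFinset, (β P + (P.ord b).natAbs), fun m hm f hf => ?_⟩
        obtain ⟨ω, hω, rfl⟩ := (h𝓕 m f).1 hf
        refine trace_ge Q fun P e hP => ?_
        refine ((hbge P).mul (hβ P ⟨e, hP⟩ m hm ω hω)).mono ?_
        have h2 := hsum Q (fun P => β P + (P.ord b).natAbs) P e hP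
        beta_reduce at h2
        omega)
      (by
        intro Q
        choose β hβ using fun P => sec_all hy hΔ hA D' P
        refine ⟨∑ P ∈ (hfin Q).toFinset, (β P + (P.ord b).natAbs), fun m hm f hf => ?_⟩
        obtain ⟨ω, hω, rfl⟩ := (h𝓕 m f).1 hf
        refine trace_ge Q fun P e hP => ?_
        refine ((hbge P).mul (hβ P m hm ω hω)).mono ?_
        have h2 := hsum Q (fun P => β P + (P.ord b).natAbs) P e hP
        beta_reduce at h2
        have h3 := Nat.mul_le_mul_right m h2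
        have h4 : β P * m + (P.ord b).natAbs ≤ (β P + (P.ord b).natAbs) * m := by
          have h7 : (P.ord b).natAbs ≤ (P.ord b).natAbs * m :=
            Nat.le_mul_of_pos_right _ hm
          rw [add_mul]
          exact Nat.add_le_add_left h7 _
        have h5 : β P * m + (P.ord b).natAbs ≤
            (∑ P ∈ (hfin Q).toFinset, (β P + (P.ord b).natAbs)) * m := h4.trans h3
        have h6 : ((β P * m + (P.ord b).natAbs : ℕ) : ℤ) ≤
            (((∑ P ∈ (hfin Q).toFinset, (β P + (P.ord b).natAbs)) * m : ℕ) : ℤ) := by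
          exact_mod_cast h5
        rw [Nat.cast_add] at h6
        linarith)
      S
      (by
        intro Q hQ m hm f hf
        obtain ⟨ω, hω, rfl⟩ := (h𝓕 m f).1 hf
        refine trace_reg Q _ fun P e hP => ?_
        have h1 : P.Reg b := hSreg Q hQ P e hP b (Finset.mem_insert_self _ _)
        have h2 : P.Reg (ω D') := hS0 P (fun t ht => hSreg Q hQ P e hP t
          (Finset.mem_insert_of_mem ht)) m hm ω hω
        exact P.reg_mul h1 h2)
    refine ⟨C, fun m hm r f hf h => hC m hm r f hf fun j => ?_⟩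
    rw [h𝓕]
    exact h j
  choose C hC using hmain
  refine ⟨∑ i, C i, fun m hm r f hf h => ?_⟩
  let ev : ((Fin n → Derivation ℂ K K) → K) →ₗ[ℂ] K := LinearMap.proj D'
  have h1 := trace_count (L := L) (V := (secSub y n m (m • Δ + A)).map ev)
    (fun i => Module.finBasis L K i) (fun x hx => trace_basis (Module.finBasis L K) x hx)
    (B := fun i => C i * m ^ κ) (fun i r f hf h => hC i m hm r f hf fun j => by
      obtain ⟨x, hx, hj⟩ := h j
      obtain ⟨ω, hω, rfl⟩ := Submodule.mem_map.1 hx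
      exact ⟨ω, hω, hj⟩) r f hf (fun j => by
      obtain ⟨ω, hω, hj⟩ := h j
      exact Submodule.mem_map.2 ⟨ω, hω, hj⟩)
  rwa [Finset.sum_mul]

end

end Pool.Agent.D0H90.FC
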